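import Pool.Agent.R439.LX.Stm
import Pool.Agent.R439.LW.P_PROD

set_option autoImplicit false

namespace Pool.Agent.R439.LX

open Finset Polynomial Pool.Agent.Helper857.Pad Pool.Agent.R856.CM Pool.Agent.R856.TK

lemma fl_succ (n : ℕ) : fl (n+1) * (3*(6*(n:ℚ)+7)*(3*n+2)) = fl n * (2*(4*(n:ℚ)+3)*(4*n+5)) := by
  have e : fl (n+1) = fl n * (2*(4*(n:ℚ)+3)*(4*n+5)/(3*(6*n+7)*(3*n+2))) := by
    unfold fl; rw [prod_range_succ]
  have h1 : (6*(n:ℚ)+7) ≠ 0 := by positivity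
  have h2 : (3*(n:ℚ)+2) ≠ 0 := by positivity
  rw [e]; field_simp

def Qd (n : ℕ) : ℚ := ∏ i ∈ range n, ((n:ℚ) + 1/2 + i)

lemma Qd_succ (n : ℕ) : ((n:ℚ) + 1/2) * Qd (n+1) = Qd n * ((2*(n:ℚ)+1/2) * (2*(n:ℚ)+3/2)) := by
  have h1 : ∏ i ∈ range (n+2), ((n:ℚ) + 1/2 + i) = Qd n * ((2*(n:ℚ)+1/2) * (2*(n:ℚ)+3/2)) := by
    rw [prod_range_succ, prod_range_succ]
    unfold Qd
    push_cast
    ring
  rw [← h1, prod_range_succ' _ (n+1)]
  unfold Qd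
  rw [mul_comm]
  congr 1
  · apply prod_congr rfl
    intro i _
    push_cast; ring
  · push_cast; ring

lemma Kl_eq (n : ℕ) : Kl n * (n.factorial : ℚ) = (-4)^n * Qd n := by
  unfold Kl gg
  rw [prod_div_distrib, prod_mul_distrib, Pool.Agent.R439.LW.prod_neg, prod_pow]
  have h : ∏ i ∈ range n, ((i:ℚ)+1) = (n.factorial : ℚ) := by
    rw [← Finset.prod_range_add_one_eq_factorial]; push_cast; rfl
  rw [h]
  have h0 : (n.factorial : ℚ) ≠ 0 := by exact_mod_cast n.factorial_ne_zero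
  have e : (-4:ℚ)^n = (-1)^n * 4^n := by rw [← mul_pow]; norm_num
  rw [e]
  unfold Qd
  field_simp

lemma Kl_succ (n : ℕ) : Kl (n+1) * ((2*(n:ℚ)+1) * ((n:ℚ)+1)) = Kl n * (-2 * (4*(n:ℚ)+1) * (4*n+3)) := by
  have h1 := Kl_eq n
  have h2 := Kl_eq (n+1)
  have h3 := Qd_succ n
  have h0 : (n.factorial : ℚ) ≠ 0 := by exact_mod_cast n.factorial_ne_zero
  rw [Nat.factorial_succ] at h2
  push_cast at h2
  apply mul_right_cancel₀ h0
  rw [pow_succ] at h2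
  linear_combination (2*(n:ℚ)+1) * h2 - (2 * (4*(n:ℚ)+1) * (4*n+3)) * (-1) * h1 - 8 * (-4:ℚ)^n * h3

lemma Kl_choose (n : ℕ) : Kl n * ((2*n).factorial : ℚ)^2 = (-1)^n * ((4*n).factorial : ℚ) := by
  induction n with
  | zero => simp [Kl, gg]
  | succ n ih =>
    have h := Kl_succ n
    have e1 : ((2*(n+1)).factorial : ℚ) = (2*(n:ℚ)+2) * (2*n+1) * ((2*n).factorial : ℚ) := by
      rw [show 2*(n+1) = 2*n+1+1 by ring, Nat.factorial_succ, Nat.factorial_succ]; push_cast; ring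
    have e2 : ((4*(n+1)).factorial : ℚ) = (4*(n:ℚ)+4) * (4*n+3) * (4*n+2) * (4*n+1) * ((4*n).factorial : ℚ) := by
      rw [show 4*(n+1) = 4*n+1+1+1+1 by ring, Nat.factorial_succ, Nat.factorial_succ, Nat.factorial_succ, Nat.factorial_succ]
      push_cast; ring
    rw [e1, e2, pow_succ (-1:ℚ)]
    linear_combination (4 * (2*(n:ℚ)+1) * (n+1) * ((2*n).factorial : ℚ)^2) * h -
      (8 * (2*(n:ℚ)+1) * (n+1) * (4*n+1) * (4*n+3)) * ih

def P1 (n : ℕ) : ℚ := ∏ s ∈ range (2*n+1), (3*(s:ℚ)+1)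

lemma P1_succ (n : ℕ) : P1 (n+1) = P1 n * ((6*(n:ℚ)+4) * (6*n+7)) := by
  unfold P1
  rw [show 2*(n+1)+1 = 2*n+1+1+1 by ring, prod_range_succ, prod_range_succ]
  push_cast; ring

lemma exact_rel (n : ℕ) : (-3)^n * P1 n * fl n = (4*(n:ℚ)+1) * ((2*n).factorial : ℚ) * Kl n := by
  induction n with
  | zero => simp [P1, fl, Kl, gg]
  | succ n ih =>
    have h1 := fl_succ n
    have h2 := Kl_succ n
    rw [P1_succ]
    have e : ((2*(n+1)).factorial : ℚ) = (2*(n:ℚ)+2) * (2*(n:ℚ)+1) * ((2*n).factorial : ℚ) := by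
      rw [show 2*(n+1) = 2*n+1+1 by ring, Nat.factorial_succ, Nat.factorial_succ]; push_cast; ring
    rw [e]
    push_cast
    have key : (3*(6*(n:ℚ)+7)*(3*n+2)) * ((-3)^(n+1) * (P1 n * ((6*(n:ℚ)+4) * (6*n+7))) * fl (n+1)) =
        (3*(6*(n:ℚ)+7)*(3*n+2)) * ((4*((n:ℚ)+1)+1) * ((2*(n:ℚ)+2) * (2*(n:ℚ)+1) * ((2*n).factorial : ℚ)) * Kl (n+1)) := by
      have e1 : (3*(6*(n:ℚ)+7)*(3*n+2)) * ((-3)^(n+1) * (P1 n * ((6*(n:ℚ)+4) * (6*n+7))) * fl (n+1)) =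
        (-3) * ((6*(n:ℚ)+4) * (6*n+7)) * ((-3)^n * P1 n) * (fl (n+1) * (3*(6*(n:ℚ)+7)*(3*n+2))) := by ring
      rw [e1, h1]
      have e2 : (-3) * ((6*(n:ℚ)+4) * (6*n+7)) * ((-3)^n * P1 n) * (fl n * (2*(4*(n:ℚ)+3)*(4*n+5))) =
        (-3) * ((6*(n:ℚ)+4) * (6*n+7)) * (2*(4*(n:ℚ)+3)*(4*n+5)) * ((-3)^n * P1 n * fl n) := by ring
      rw [e2, ih]
      linear_combination (-((4*((n:ℚ)+1)+1) * 2 * ((2*n).factorial : ℚ) * (3*(6*(n:ℚ)+7)*(3*n+2)))) * h2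
    have hne : (3*(6*(n:ℚ)+7)*(3*n+2)) ≠ 0 := by positivity
    exact mul_left_cancel₀ hne key

section

variable {p : ℕ} [hp : Fact p.Prime] {c : ℕ} (hc : 6*c+1 = p) (hc1 : 1 ≤ c)
include hc hc1

omit hp hc1 in
lemma P1_eq {n : ℕ} (hn : 2*n = 3*c) : P1 n = p * Pool.Agent.R439.LW.Pn c := by
  unfold P1 Pool.Agent.R439.LW.Pn
  rw [show 2*n+1 = 2*c+1+c by omega, prod_range_add, prod_range_succ, ← hc]
  push_cast
  ring

/-- `P' T ≡ (3c)!` for even `c` -/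
lemma PT (heven : c % 2 = 0) : I p 2 (Pool.Agent.R439.LW.Pn c * (Pool.Agent.R856.CM.TT (3*c) : ℚ) - ((3*c).factorial : ℚ)) := by
  have hT := T_exp hc hc1
  have hP := Pool.Agent.R439.LW.Pn_exp hc hc1
  have hU := neg3_exp hc hc1
  have hw := ww_exp hc hc1
  have m3i : (1/3:ℚ) ∈ Zp p := by
    have := one_div_c hc hc1 (k := 3) (by omega) (by omega)
    exact_mod_cast this
  have mh3 := hs_mem hc hc1 (3*c) (by omega)
  have mh2 := hs_mem hc hc1 (2*c) (by omega)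
  have mh1 := hs_mem hc hc1 c (by omega)
  have mw := ww_mem hc hc1
  have mp' : (p:ℚ) ∈ Zp p := nat_mem _
  have hch : ((3*c).choose (2*c) : ℚ) * ((2*c).factorial : ℚ) * (c.factorial : ℚ) = ((3*c).factorial : ℚ) := by
    have := Nat.choose_mul_factorial_mul_factorial (show 2*c ≤ 3*c by omega)
    rw [show 3*c - 2*c = c by omega] at this
    exact_mod_cast this
  have h3 : (3:ℚ)^(3*c) = (-3)^(3*c) := by
    have : (-3:ℚ)^(3*c) = (-1)^(3*c) * 3^(3*c) := by rw [← mul_pow]; norm_num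
    rw [this, Even.neg_one_pow (Nat.even_iff.mpr (by omega))]; ring
  have mT : (Pool.Agent.R856.CM.TT (3*c) : ℚ) ∈ Zp p := int_mem _
  have mF : ((2*c).factorial : ℚ) ∈ Zp p := nat_mem _
  have mG : (c.factorial : ℚ) ∈ Zp p := nat_mem _
  have mH : ((3*c).factorial : ℚ) ∈ Zp p := nat_mem _
  have mC : ((3*c).choose (2*c) : ℚ) ∈ Zp p := nat_mem _
  have mN : (-3:ℚ)^(3*c) ∈ Zp p := (Zp p).pow_mem ((Zp p).neg_mem m3) _
  rw [h3] at hP
  generalize hs (3*c) = a3 at *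
  generalize hs (2*c) = a2 at *
  generalize hs c = a1 at *
  generalize ww c = w at *
  generalize (Pool.Agent.R856.CM.TT (3*c) : ℚ) = T at *
  generalize Pool.Agent.R439.LW.Pn c = P at *
  generalize (-3:ℚ)^(3*c) = N at *
  generalize ((3*c).choose (2*c) : ℚ) = b at *
  generalize ((2*c).factorial : ℚ) = F at *
  generalize (c.factorial : ℚ) = G at *
  generalize ((3*c).factorial : ℚ) = H at *
  have e : P * T - H =
      (P - N * F * G * (1 - (p:ℚ) * (1/3) * (a2 - a1))) * T +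
      (N * F * G * (1 - (p:ℚ) * (1/3) * (a2 - a1))) * (T - b * (1 - (p:ℚ) * (1/3) * (a3 - a2))) +
      H * ((N - (1 + (p:ℚ) * w)) * ((1 - (p:ℚ) * (1/3) * (a2 - a1)) * (1 - (p:ℚ) * (1/3) * (a3 - a2)))) +
      H * (1/3) * ((p:ℚ)^1 * (3*w - (a3 - a1))) +
      (p:ℚ)^2 * (H * ((1/3) * (a2 - a1) * ((1/3) * (a3 - a2)) * (1 + p * w) - w * ((1/3) * (a3 - a1)))) := by
    rw [← hch]; ring
  rw [e]
  have mA : (1 - (p:ℚ) * (1/3) * (a2 - a1)) ∈ Zp p :=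
    (Zp p).sub_mem (Zp p).one_mem ((Zp p).mul_mem ((Zp p).mul_mem mp' m3i) ((Zp p).sub_mem mh2 mh1))
  have mB : (1 - (p:ℚ) * (1/3) * (a3 - a2)) ∈ Zp p :=
    (Zp p).sub_mem (Zp p).one_mem ((Zp p).mul_mem ((Zp p).mul_mem mp' m3i) ((Zp p).sub_mem mh3 mh2))
  apply I.add
  · apply I.add
    · apply I.add
      · apply I.add
        · exact hP.mul_mem mT
        · exact I.mem_mul ((Zp p).mul_mem ((Zp p).mul_mem ((Zp p).mul_mem mN mF) mG) mA) hT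
      · exact I.mem_mul mH (hU.mul_mem ((Zp p).mul_mem mA mB))
    · have := (I.p_pow (p := p) 1).mul hw
      exact I.mem_mul ((Zp p).mul_mem mH m3i) this
  · apply (I.p_pow 2).mul_mem
    apply (Zp p).mul_mem mH
    apply (Zp p).sub_mem
    · exact (Zp p).mul_mem ((Zp p).mul_mem ((Zp p).mul_mem m3i ((Zp p).sub_mem mh2 mh1)) ((Zp p).mul_mem m3i ((Zp p).sub_mem mh3 mh2)))
        ((Zp p).add_mem (Zp p).one_mem ((Zp p).mul_mem mp' mw))
    · exact (Zp p).mul_mem mw ((Zp p).mul_mem m3i ((Zp p).sub_mem mh3 mh1))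

lemma Kl_mem {n : ℕ} (hn : 2*n = 3*c) : Kl n ∈ Zp p := by
  have h := Kl_choose n
  have hnd : ¬ p ∣ ((2*n).factorial)^2 := by
    intro h2
    have h3 := hp.out.dvd_of_dvd_pow h2
    rw [hp.out.dvd_factorial] at h3
    omega
  have hi := inv_nat_mem hnd
  have hne : ((((2*n).factorial)^2 : ℕ) : ℚ) ≠ 0 := by
    have := (2*n).factorial_ne_zero
    positivity
  have e : Kl n = ((((2*n).factorial)^2 : ℕ) : ℚ)⁻¹ * ((-1)^n * ((4*n).factorial : ℚ)) := by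
    rw [← h]; push_cast at hne ⊢; field_simp
  rw [e]
  exact (Zp p).mul_mem hi ((Zp p).mul_mem ((Zp p).pow_mem ((Zp p).neg_mem (Zp p).one_mem) _) (nat_mem _))

theorem t_PROD (heven : c % 2 = 0) {n : ℕ} (hn : 2*n = 3*c) (hR : (-3:ℚ)^n * Rl n = (Pool.Agent.R856.CM.TT (3*c) : ℚ)) :
    I p 2 (fl n - Kl n * Rl n) := by
  have hex := exact_rel n
  have hP1 := P1_eq (p := p) hc hn
  have hpt := PT hc hc1 heven
  have hp0 : (p:ℚ) ≠ 0 := by exact_mod_cast hp.out.ne_zero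
  have hp4 : (4*(n:ℚ)+1) = p := by
    have : 4*n+1 = p := by omega
    rw [← this]; push_cast; ring
  rw [hP1, hp4, hn] at hex
  have hex2 : (-3)^n * Pool.Agent.R439.LW.Pn c * fl n = ((3*c).factorial : ℚ) * Kl n := by
    apply mul_left_cancel₀ hp0
    linear_combination hex
  have key : ((Pool.Agent.R439.LW.Pz c * 3^n : ℕ) : ℚ) * (fl n - Kl n * Rl n) =
      -((-1)^n * Kl n) * (Pool.Agent.R439.LW.Pn c * (Pool.Agent.R856.CM.TT (3*c) : ℚ) - ((3*c).factorial : ℚ)) := by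
    push_cast
    rw [Pool.Agent.R439.LW.Pz_cast]
    have h3 : (3:ℚ)^n = (-1)^n * (-3)^n := by rw [← mul_pow]; norm_num
    rw [h3]
    linear_combination (-1:ℚ)^n * hex2 - (-1:ℚ)^n * Kl n * Pool.Agent.R439.LW.Pn c * hR
  have hn' : ¬ p ∣ Pool.Agent.R439.LW.Pz c * 3^n := by
    intro h
    rcases (hp.out.dvd_mul).mp h with h | h
    · exact Pool.Agent.R439.LW.Pz_unit hc hc1 h
    · have := hp.out.dvd_of_dvd_pow h
      exact absurd (Nat.le_of_dvd (by norm_num) this) (by omega)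
  apply I.cancel hn'
  rw [key]
  apply I.mem_mul _ hpt
  exact (Zp p).neg_mem ((Zp p).mul_mem ((Zp p).pow_mem ((Zp p).neg_mem (Zp p).one_mem) _) (Kl_mem hc hc1 hn))

end

end Pool.Agent.R439.LX
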