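import Pool.Agent.R439.LX.P_EV
import Pool.Agent.R439.LX.P_PROD
import Pool.Agent.R856.CM12

set_option autoImplicit false

namespace Pool.Agent.R439.LX

open Finset Pool.Agent.Helper857.Pad Pool.Agent.R856.CM Pool.Agent.R856.TK

/-- `(1/4)_k / k!` -/
def cq (k : ℕ) : ℚ := ∏ i ∈ range k, ((1/4 + (i:ℚ))/((i:ℚ)+1))

def ep (u : ℤ) : ℚ := if u % 4 = 1 then 1 else -1

section

variable {p : ℕ} [hp : Fact p.Prime] {c : ℕ} (hc : 6*c+1 = p) (hc1 : 1 ≤ c)
include hc hc1

lemma quarter_mem : (1/4:ℚ) ∈ Zp p := by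
  have := one_div_c hc hc1 (k := 4) (by omega) (by omega)
  exact_mod_cast this

lemma cq_mem (k : ℕ) (hk : k < p) : cq k ∈ Zp p := by
  unfold cq
  apply (Zp p).prod_mem
  intro i hi
  rw [mem_range] at hi
  have h1 := one_div_c hc hc1 (k := i+1) (by omega) (by omega)
  push_cast at h1
  rw [div_eq_mul_one_div]
  exact (Zp p).mul_mem ((Zp p).add_mem (quarter_mem hc hc1) (nat_mem _)) h1

lemma cq_zero (n : ℕ) (hn : 4*n+1 = p) (k : ℕ) : n + 1 + k < p → I p 1 (cq (n+1+k)) := by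
  induction k with
  | zero =>
    intro hk
    have e : cq (n+1+0) = (p:ℚ)^1 * (cq n * (1/4) * (1/((n:ℚ)+1))) := by
      have hq : (p:ℚ) = 4*(n:ℚ)+1 := by rw [← hn]; push_cast; ring
      rw [add_zero]
      unfold cq
      rw [prod_range_succ, hq]
      field_simp
      ring
    rw [e]
    have h1 := one_div_c hc hc1 (k := n+1) (by omega) (by omega)
    push_cast at h1
    exact (I.p_pow 1).mul_mem ((Zp p).mul_mem ((Zp p).mul_mem (cq_mem hc hc1 n (by omega)) (quarter_mem hc hc1)) h1)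
  | succ k ih =>
    intro hk
    have ih' := ih (by omega)
    have e : cq (n+1+(k+1)) = cq (n+1+k) * ((1/4 + ((n+1+k:ℕ):ℚ)) * (1/((n+1+k+1 : ℕ):ℚ))) := by
      unfold cq
      rw [show n+1+(k+1) = n+1+k+1 by ring, prod_range_succ]
      push_cast
      rw [div_eq_mul_one_div (1/4 + ((n:ℚ)+1+k))]
    rw [e]
    have h1 := one_div_c hc hc1 (k := n+1+k+1) (by omega) (by omega)
    exact ih'.mul_mem ((Zp p).mul_mem ((Zp p).add_mem (quarter_mem hc hc1) (nat_mem _)) h1)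

lemma trunc (n : ℕ) (hn : 4*n+1 = p) :
    I p 2 (∑ k ∈ range p, cq k^2 * (1/4)^k - ∑ k ∈ range (n+1), cq k^2 * (1/4)^k) := by
  have e : ∑ k ∈ range p, cq k^2 * (1/4)^k = ∑ k ∈ range (n+1), cq k^2 * (1/4)^k +
      ∑ k ∈ range (3*n), cq (n+1+k)^2 * (1/4)^(n+1+k) := by
    rw [← sum_range_add, show n+1+3*n = p by omega]
  rw [e, add_sub_cancel_left]
  apply I.sum
  intro k hk
  rw [mem_range] at hk
  have h := (cq_zero hc hc1 n hn k (by omega)).pow 2
  exact h.mul_mem ((Zp p).pow_mem (quarter_mem hc hc1) _)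

lemma K_mod (n : ℕ) (hn : 2*n = 3*c) : I p 1 (Kl n - (-1)^n) := by
  have h := Kl_choose n
  have hn4 : 4*n + 1 = p := by omega
  -- Wilson
  have w1 : (((4*n).factorial : ℕ) : ZMod p) = -1 := by
    have := ZMod.wilsons_lemma p
    rw [show p - 1 = 4*n by omega] at this
    exact this
  have w2 : (((2*n).factorial : ℕ) : ZMod p)^2 = -1 := by
    have h1 : ((4*n).factorial : ZMod p) = ((2*n).factorial : ZMod p) * ∏ i ∈ range (2*n), (((2*n + 1 + i : ℕ)) : ZMod p) := by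
      have h2 := Nat.factorial_mul_ascFactorial (2*n) (2*n)
      rw [show 2*n+2*n = 4*n by ring, Nat.ascFactorial_eq_prod_range] at h2
      rw [← h2]
      push_cast
      rfl
    have h2 : ∏ i ∈ range (2*n), (((2*n + 1 + i : ℕ)) : ZMod p) = ((2*n).factorial : ZMod p) := by
      rw [← prod_range_reflect, ← Finset.prod_range_add_one_eq_factorial]
      push_cast
      have h3 : ∀ j ∈ range (2*n), (2*(n:ZMod p) + 1 + ((2*n - 1 - j : ℕ) : ZMod p)) = (-1) * ((j:ZMod p) + 1) := by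
        intro j hj
        rw [mem_range] at hj
        have h4 : ((4*n+1 : ℕ) : ZMod p) = 0 := by rw [hn4]; simp
        push_cast at h4
        rw [show 2*n-1-j = 2*n-(j+1) by omega, Nat.cast_sub (by omega)]
        push_cast
        linear_combination h4
      rw [prod_congr rfl h3, prod_mul_distrib, prod_const, card_range, pow_mul]
      norm_num
    rw [sq]
    rw [h2] at h1
    rw [← h1, w1]
  have hd : (p:ℤ) ∣ ((4*n).factorial : ℤ) - ((2*n).factorial : ℤ)^2 := by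
    apply dvd_of_zmod
    push_cast
    have w1' : ((4*n).factorial : ZMod p) = -1 := w1
    have w2' : ((2*n).factorial : ZMod p)^2 = -1 := w2
    rw [w1', w2']; ring
  obtain ⟨z, hz⟩ := hd
  have hnd : ¬ p ∣ ((2*n).factorial)^2 := by
    intro h2
    have h3 := hp.out.dvd_of_dvd_pow h2
    rw [hp.out.dvd_factorial] at h3
    omega
  apply I.cancel hnd
  have hz' : ((4*n).factorial : ℚ) - ((2*n).factorial : ℚ)^2 = (p:ℚ) * (z:ℚ) := by exact_mod_cast hz
  have e : ((((2*n).factorial)^2 : ℕ) : ℚ) * (Kl n - (-1)^n) = (p:ℚ)^1 * ((-1)^n * (z:ℚ)) := by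
    push_cast
    linear_combination h + (-1:ℚ)^n * hz'
  rw [e]
  exact (I.p_pow 1).mul_mem ((Zp p).mul_mem ((Zp p).pow_mem ((Zp p).neg_mem (Zp p).one_mem) _) (int_mem _))

theorem third (hPOLY : S_POLY) (hREV : S_REV) (hSTR : S_STR) (hEXP : S_EXP) (hSIGN : S_SIGN)
    (n : ℕ) (hn : 2*n = 3*c) (heven : c % 2 = 0) (x y : ℤ) (hxy : (p:ℤ) = x^2 + 3*y^2) :
    I p 2 (∑ k ∈ range p, cq k^2 * (1/4)^k - ep x * (2*x - p/(2*x))) := by
  have hn4 : 4*n+1 = p := by omega
  obtain ⟨-, e2, e3, mA, mB, mC, eS⟩ := hEXP p n hn4 (by omega)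
  have hsq := s1_sq hc hc1 x y hxy
  have hs3 := s1_mod3 hc hc1
  have hT1 := T_s1 hc hc1
  obtain ⟨u, hu, hux⟩ : ∃ u : ℤ, s1 p = 2*u ∧ (x = u ∨ x = -u) := by
    have : (s1 p - 2*x) * (s1 p + 2*x) = 0 := by linear_combination hsq
    rcases mul_eq_zero.mp this with h | h
    · exact ⟨x, by linarith, Or.inl rfl⟩
    · exact ⟨-x, by linarith, Or.inr (by ring)⟩
  have hxu : x^2 = u^2 := by rcases hux with rfl | rfl <;> ring
  have huy : (p:ℤ) = u^2 + 3*y^2 := by rw [← hxu]; exact hxy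
  have hu3 : u % 3 = 2 := by omega
  have hp4 : (p:ℤ) % 4 = 1 := by omega
  have hu2 : u % 2 = 1 := by
    rcases Int.emod_two_eq_zero_or_one u with h | h
    · exfalso
      obtain ⟨d, rfl⟩ : ∃ d, u = 2*d := ⟨u/2, by omega⟩
      rcases Int.emod_two_eq_zero_or_one y with h6 | h6
      · obtain ⟨f, rfl⟩ : ∃ f, y = 2*f := ⟨y/2, by omega⟩
        have : (p:ℤ) = 4*(d^2+3*f^2) := by rw [huy]; ring
        omega
      · obtain ⟨f, rfl⟩ : ∃ f, y = 2*f+1 := ⟨y/2, by omega⟩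
        have : (p:ℤ) = 4*(d^2+3*f^2+3*f)+3 := by rw [huy]; ring
        omega
    · exact h
  have hsgn := hSIGN p n u y hn4 (by omega) hu3 hu2 huy
  have hup : ¬ (p:ℤ) ∣ u := by
    intro h
    have hpI : Prime (p:ℤ) := Nat.prime_iff_prime_int.mp hp.out
    have h1 : (p:ℤ) ∣ 3*y^2 := by
      have : 3*y^2 = (p:ℤ) - u^2 := by rw [huy]; ring
      rw [this]
      exact dvd_sub (dvd_refl _) (dvd_pow h (by norm_num))
    rcases hpI.dvd_or_dvd h1 with h2 | h2
    · have : (p:ℕ) ∣ 3 := by exact_mod_cast h2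
      exact absurd (Nat.le_of_dvd (by norm_num) this) (by omega)
    · have h2 := hpI.dvd_of_dvd_pow h2
      have h3 := Int.dvd_coe_gcd h h2
      rw [cop u y huy] at h3
      have h4 : p ∣ 1 := by exact_mod_cast h3
      exact hp.out.one_lt.ne' (Nat.dvd_one.mp h4)
  have hu0 : (u:ℚ) ≠ 0 := by
    intro h0
    apply hup
    have : u = 0 := by exact_mod_cast h0
    rw [this]; exact dvd_zero _
  have mui : ((u:ℚ))⁻¹ ∈ Zp p := inv_int_mem hup
  have mu : (u:ℚ) ∈ Zp p := int_mem _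
  have mp' : (p:ℚ) ∈ Zp p := nat_mem _
  have m2i : (1/2:ℚ) ∈ Zp p := by
    have := one_div_c hc hc1 (k := 2) (by omega) (by omega)
    exact_mod_cast this
  -- the right-hand side in terms of `u`
  have hrhs : ep x * (2*(x:ℚ) - p/(2*x)) = ep u * (2*(u:ℚ) - p/(2*u)) := by
    rcases hux with rfl | rfl
    · rfl
    · have : ep (-u) = - ep u := by
        unfold ep
        rcases (show u % 4 = 1 ∨ u % 4 = 3 by omega) with h | h
        · rw [if_pos h, if_neg (by omega)]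
        · rw [if_neg (by omega : ¬ u % 4 = 1), if_pos (by omega)]; norm_num
      rw [this]
      push_cast
      field_simp
      ring
  rw [hrhs]
  -- `3^n = - ep u` modulo `p`
  have h3n : I p 1 ((3:ℚ)^n + ep u) := by
    unfold ep
    rcases (show u % 4 = 1 ∨ u % 4 = 3 by omega) with h | h
    · rw [if_pos h]
      obtain ⟨z, hz⟩ := hsgn.1 h
      have : (3:ℚ)^n + 1 = (p:ℚ)^1 * (z:ℚ) := by rw [pow_one]; exact_mod_cast hz
      rw [this]
      exact (I.p_pow 1).mul_mem (int_mem _)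
    · rw [if_neg (by omega)]
      obtain ⟨z, hz⟩ := hsgn.2 h
      have : (3:ℚ)^n + -1 = (p:ℚ)^1 * (z:ℚ) := by
        rw [pow_one, ← sub_eq_add_neg]; exact_mod_cast hz
      rw [this]
      exact (I.p_pow 1).mul_mem (int_mem _)
  have hR := t_EV hPOLY n
  rw [hn] at hR
  have hP := t_PROD hc hc1 heven hn hR
  have hK := K_mod hc hc1 n hn
  have hA := A_exp hc hc1
  have hTsq := T_sq (3*c)
  have hRB := hREV n
  rw [hSTR n] at e2 mC
  have mK := Kl_mem hc hc1 hn
  have htr := trunc hc hc1 n hn4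
  -- `R^2 = AA`
  have hR2 : (Rl n)^2 = (AA (3*c) : ℚ) := by
    have h1 : ((Pool.Agent.R856.CM.TT (3*c) : ℚ))^2 = (-3)^(3*c) * (AA (3*c) : ℚ) := by exact_mod_cast hTsq
    rw [← hR, ← hn] at h1
    have h2 : ((-3:ℚ)^(2*n)) ≠ 0 := pow_ne_zero _ (by norm_num)
    apply mul_left_cancel₀ h2
    rw [hn] at h1 ⊢
    rw [← h1, ← hn]
    ring
  have hs1 : (s1 p : ℚ) = 2 * u := by exact_mod_cast hu
  rw [hs1] at hA
  obtain ⟨z, hz⟩ := hT1
  have hz' : (Pool.Agent.R856.CM.TT (3*c) : ℚ) + 2 * u = (p:ℚ) * z := by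
    rw [← hs1]; exact_mod_cast hz
  have hep : ep u * ep u = 1 := by unfold ep; split_ifs <;> norm_num
  have mep : ep u ∈ Zp p := by
    unfold ep; split_ifs
    · exact (Zp p).one_mem
    · exact (Zp p).neg_mem (Zp p).one_mem
  have h3e : (3:ℚ)^n = (-1)^n * (-3)^n := by rw [← mul_pow]; norm_num
  have h1e : ((-1:ℚ)^n) * (-1)^n = 1 := by rw [← mul_pow]; norm_num
  have m1n : ((-1:ℚ)^n) ∈ Zp p := (Zp p).pow_mem ((Zp p).neg_mem (Zp p).one_mem) _
  have m3n : ((-3:ℚ)^n) ∈ Zp p := by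
    apply (Zp p).pow_mem
    exact (Zp p).neg_mem (by exact_mod_cast nat_mem (p := p) 3)
  have mRl : Rl n ∈ Zp p := by rw [hRB]; exact (Zp p).mul_mem mK mB
  rw [h3e] at h3n
  have eS' : I p 2 (∑ k ∈ range (n+1), cq k^2 * (1/4)^k - Al n) := by
    have := eS.neg
    rw [neg_sub] at this
    exact this
  generalize (Pool.Agent.R856.CM.TT (3*c) : ℚ) = T at *
  generalize (AA (3*c) : ℚ) = W at *
  generalize ep u = e at *
  generalize (-1:ℚ)^n = s at *
  generalize (-3:ℚ)^n = t at *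
  generalize hτ : (2*(u:ℚ) - p/(2*u)) = τ at *
  have mτ : τ ∈ Zp p := by
    have : τ = 2*u - p * ((1/2) * (u:ℚ)⁻¹) := by rw [← hτ]; field_simp
    rw [this]
    exact (Zp p).sub_mem ((Zp p).mul_mem (by exact_mod_cast nat_mem (p := p) 2) mu) ((Zp p).mul_mem mp' ((Zp p).mul_mem m2i mui))
  have q1 : I p 2 (Al n^2 - τ^2) := by
    have : Al n^2 - τ^2 = (Al n^2 - Bl n * fl n) + Bl n * (fl n - Kl n * Rl n) + (W - ((2*u)^2 - 2*p))
        + (p:ℚ)^2 * (-((1/2) * (u:ℚ)⁻¹)^2) := by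
      rw [← hR2, hRB, ← hτ]
      field_simp
      ring
    rw [this]
    exact ((e2.add (I.mem_mul mB hP)).add hA).add ((I.p_pow 2).mul_mem ((Zp p).neg_mem ((Zp p).pow_mem ((Zp p).mul_mem m2i mui) 2)))
  have q2 : I p 1 (Al n - e * (2*u)) := by
    -- t s A = t R = T = -2u, t s = -e
    have : Al n - e * (2*u) = (Al n - Bl n) * 1 + (1 - e*e) * Bl n + e * ((s*t + e) * Bl n)
        - e * (t * (s * Bl n - Rl n)) - e * (T + 2*u) + e * (T - t * Rl n) := by ring
    rw [this, hep, sub_self, zero_mul, add_zero, hR, sub_self, mul_zero, add_zero]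
    have h5 : s * Bl n - Rl n = -((Kl n - s) * Bl n) := by rw [hRB]; ring
    rw [h5, hz']
    have h6 : I p 1 ((p:ℚ) * z) := by
      have := (I.p_pow (p := p) 1).mul_mem (int_mem (p := p) z)
      rwa [pow_one] at this
    apply I.sub
    · apply I.sub
      · apply I.add
        · rw [mul_one]; exact e3
        · exact I.mem_mul mep (h3n.mul_mem mB)
      · exact I.mem_mul mep (I.mem_mul m3n (hK.mul_mem mB).neg)
    · exact I.mem_mul mep h6
  have q3 : I p 1 (τ - 2*u) := by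
    have : τ - 2*u = (p:ℚ)^1 * (-((1/2) * (u:ℚ)⁻¹)) := by rw [← hτ]; field_simp; ring
    rw [this]
    exact (I.p_pow 1).mul_mem ((Zp p).neg_mem ((Zp p).mul_mem m2i mui))
  have q2' : I p 1 (Al n - e * τ) := by
    have : Al n - e * τ = (Al n - e * (2*u)) - e * (τ - 2*u) := by ring
    rw [this]
    exact q2.sub (I.mem_mul mep q3)
  have q4 : I p 2 (((4*u : ℤ) : ℚ) * (Al n - e*τ)) := by
    have : ((4*u : ℤ) : ℚ) * (Al n - e*τ) = e * ((Al n^2 - τ^2) - (Al n - e*τ)^2 - 2 * e * ((Al n - e*τ) * (τ - 2*u)))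
        + (1 - e*e) * ((4*u) * (Al n - e*τ)) + (1 - e * e) * (e * τ^2) := by
      push_cast; ring
    rw [this, hep, sub_self, zero_mul, zero_mul, add_zero, add_zero]
    have h2 : I p 2 ((Al n - e*τ)^2) := q2'.pow 2
    have h3 : I p 2 ((Al n - e*τ) * (τ - 2*u)) := q2'.mul q3
    have m2 : (2:ℚ) ∈ Zp p := by exact_mod_cast nat_mem (p := p) 2
    exact I.mem_mul mep ((q1.sub h2).sub (I.mem_mul ((Zp p).mul_mem m2 mep) h3))
  have hu4 : ¬ (p:ℤ) ∣ 4*u := by
    intro h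
    have hpI : Prime (p:ℤ) := Nat.prime_iff_prime_int.mp hp.out
    rcases hpI.dvd_or_dvd h with h2 | h2
    · have h3 : p ∣ 4 := by exact_mod_cast h2
      exact absurd (Nat.le_of_dvd (by norm_num) h3) (by omega)
    · exact hup h2
  have q5 : I p 2 (Al n - e*τ) := by
    have h8 : ((4*u : ℤ) : ℚ) ≠ 0 := by
      push_cast
      exact mul_ne_zero (by norm_num) hu0
    have := I.mem_mul (inv_int_mem hu4) q4
    rwa [← mul_assoc, inv_mul_cancel₀ h8, one_mul] at this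
  have := (htr.add eS').add q5
  convert this using 1
  ring

end

end Pool.Agent.R439.LX
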