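import Pool.Agent.R439.LX.Stm

set_option autoImplicit false

/-! LX-EXP: termwise first order expansions modulo `p ^ 2` (helper700). -/

namespace Pool.Agent.R439.LX

open Finset Polynomial Pool.Agent.Helper857.Pad Pool.Agent.R856.CM

namespace EXPx

theorem prod_exp (p : ℕ) [Fact p.Prime] (f r t : ℕ → ℚ) (k : ℕ) (hr : ∀ i < k, r i ∈ Zp p)
    (ht : ∀ i < k, t i ∈ Zp p) (hf : ∀ i < k, I p 2 (f i - r i * (1 + p * t i))) :
    I p 2 (∏ i ∈ range k, f i - (∏ i ∈ range k, r i) * (1 + p * ∑ i ∈ range k, t i)) := by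
  induction k with
  | zero => simpa using I.zero 2
  | succ k ih =>
    have ih' := ih (fun i hi => hr i (by omega)) (fun i hi => ht i (by omega))
      (fun i hi => hf i (by omega))
    rw [prod_range_succ, prod_range_succ, sum_range_succ]
    set P := ∏ i ∈ range k, f i
    set R := ∏ i ∈ range k, r i with hR
    set S := ∑ i ∈ range k, t i with hS
    have hRm : R ∈ Zp p := (Zp p).prod_mem fun i hi => hr i (by rw [mem_range] at hi; omega)
    have hSm : S ∈ Zp p := (Zp p).sum_mem fun i hi => ht i (by rw [mem_range] at hi; omega)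
    have hrk := hr k (by omega)
    have htk := ht k (by omega)
    have hfk := hf k (by omega)
    have hpm : (p : ℚ) ∈ Zp p := nat_mem p
    have hfm : f k ∈ Zp p := by
      have h1 : f k = (f k - r k * (1 + p * t k)) + r k * (1 + p * t k) := by ring
      rw [h1]
      exact (Zp p).add_mem hfk.mem ((Zp p).mul_mem hrk
        ((Zp p).add_mem (Zp p).one_mem ((Zp p).mul_mem hpm htk)))
    have e : P * f k - R * r k * (1 + p * (S + t k)) =
        (P - R * (1 + p * S)) * f k + (R * (1 + p * S)) * (f k - r k * (1 + p * t k)) +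
          (p : ℚ) ^ 2 * (R * r k * S * t k) := by ring
    rw [e]
    refine ((ih'.mul_mem hfm).add (I.mem_mul ?_ hfk)).add ((I.p_pow 2).mul_mem ?_)
    · exact (Zp p).mul_mem hRm ((Zp p).add_mem (Zp p).one_mem ((Zp p).mul_mem hpm hSm))
    · exact (Zp p).mul_mem ((Zp p).mul_mem ((Zp p).mul_mem hRm hrk) hSm) htk

/-- the common leading factor -/
def rr (i : ℕ) : ℚ := (1/4 + (i:ℚ))^2 / (4 * ((i:ℚ)+1)^2)

/-- the first order coefficient -/
def tt (i : ℕ) : ℚ := ((1/4 + (i:ℚ))⁻¹ - ((i:ℚ)+1)⁻¹) / 2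

section
variable (p : ℕ) [hp : Fact p.Prime] (l : ℕ) (h : 4*l+1 = p)
include h

theorem inv2 : (2:ℚ)⁻¹ ∈ Zp p := by
  have h1 : ¬ p ∣ 2 := by
    intro hd
    have h3 := Nat.le_of_dvd (by norm_num) hd
    have h4 := hp.out.two_le
    omega
  exact_mod_cast inv_nat_mem (p := p) h1

theorem invx (i : ℕ) (hi : i < l) : (1/4 + (i:ℚ))⁻¹ ∈ Zp p := by
  have h1 : ¬ p ∣ (4*i+1) := by
    intro hd
    have := Nat.le_of_dvd (by omega) hd
    omega
  have h2 := inv_nat_mem (p := p) h1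
  have h3 : (1/4 + (i:ℚ))⁻¹ = 4 * (((4*i+1 : ℕ)):ℚ)⁻¹ := by
    push_cast
    have : (1:ℚ)/4 + i = (4*i+1)/4 := by ring
    rw [this, inv_div, div_eq_mul_inv]
  rw [h3]
  exact (Zp p).mul_mem (by exact_mod_cast nat_mem (p := p) 4) h2

theorem invy (i : ℕ) (hi : i < l) : ((i:ℚ)+1)⁻¹ ∈ Zp p := by
  have h1 : ¬ p ∣ (i+1) := by
    intro hd
    have := Nat.le_of_dvd (by omega) hd
    omega
  have h2 := inv_nat_mem (p := p) h1
  push_cast at h2
  exact h2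

theorem inv4 : (4:ℚ)⁻¹ ∈ Zp p := by
  have h2 := inv2 p l h
  have h3 : (4:ℚ)⁻¹ = (2:ℚ)⁻¹ * (2:ℚ)⁻¹ := by norm_num
  rw [h3]
  exact (Zp p).mul_mem h2 h2

theorem xmem (i : ℕ) : (1/4 + (i:ℚ)) ∈ Zp p := by
  have h1 : (1/4 + (i:ℚ)) = (4:ℚ)⁻¹ + i := by ring
  rw [h1]
  exact (Zp p).add_mem (inv4 p l h) (nat_mem i)

theorem rmem (i : ℕ) (hi : i < l) : rr i ∈ Zp p := by
  have h1 : rr i = (1/4 + (i:ℚ))^2 * (4:ℚ)⁻¹ * (((i:ℚ)+1)⁻¹)^2 := by
    rw [rr, div_eq_mul_inv, mul_inv, inv_pow]; ring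
  rw [h1]
  exact (Zp p).mul_mem ((Zp p).mul_mem ((Zp p).pow_mem (xmem p l h i) 2) (inv4 p l h))
    ((Zp p).pow_mem (invy p l h i hi) 2)

theorem tmem (i : ℕ) (hi : i < l) : tt i ∈ Zp p := by
  rw [tt, div_eq_mul_inv]
  exact (Zp p).mul_mem ((Zp p).sub_mem (invx p l h i hi) (invy p l h i hi)) (inv2 p l h)

theorem invm (i : ℕ) (hi : i < l) : ((i:ℚ)+1 - p/2)⁻¹ ∈ Zp p := by
  have h1 : ¬ (p:ℤ) ∣ (2*((i:ℤ)+1) - p) := by
    intro hd
    have h2 : (p:ℤ) ∣ 2*((i:ℤ)+1) := by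
      have := dvd_add hd (dvd_refl (p:ℤ))
      simpa using this
    have := Int.le_of_dvd (by positivity) h2
    omega
  have h2 := inv_int_mem (p := p) h1
  push_cast at h2
  have h3 : ((i:ℚ)+1 - p/2)⁻¹ = 2 * (2*((i:ℚ)+1) - p)⁻¹ := by
    have : (i:ℚ)+1 - p/2 = (2*((i:ℚ)+1) - p)/2 := by ring
    rw [this, inv_div, div_eq_mul_inv]
  rw [h3]
  exact (Zp p).mul_mem (by exact_mod_cast nat_mem (p := p) 2) h2

theorem invp (i : ℕ) (hi : i < l) : ((i:ℚ)+1 + p/2)⁻¹ ∈ Zp p := by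
  have h1 : ¬ (p:ℤ) ∣ (2*((i:ℤ)+1) + p) := by
    intro hd
    have h2 : (p:ℤ) ∣ 2*((i:ℤ)+1) := by
      have := dvd_sub hd (dvd_refl (p:ℤ))
      simpa using this
    have := Int.le_of_dvd (by positivity) h2
    omega
  have h2 := inv_int_mem (p := p) h1
  push_cast at h2
  have h3 : ((i:ℚ)+1 + p/2)⁻¹ = 2 * (2*((i:ℚ)+1) + p)⁻¹ := by
    have : (i:ℚ)+1 + p/2 = (2*((i:ℚ)+1) + p)/2 := by ring
    rw [this, inv_div, div_eq_mul_inv]
  rw [h3]
  exact (Zp p).mul_mem (by exact_mod_cast nat_mem (p := p) 2) h2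

theorem lq : (l:ℚ) = ((p:ℚ) - 1)/4 := by
  have : ((4*l+1 : ℕ) : ℚ) = (p:ℚ) := by rw [h]
  push_cast at this
  linarith

theorem mneg (i : ℕ) (hi : i < l) : (i:ℚ)+1 - p/2 ≠ 0 := by
  intro h0
  have h1 : ((2*(i+1) : ℕ):ℚ) = (p:ℚ) := by push_cast; linarith
  have h2 : 2*(i+1) = p := by exact_mod_cast h1
  omega

theorem gg_exp (k : ℕ) (hk : k ≤ l) :
    I p 2 (gg l k * (1/4)^k - ∏ i ∈ range k, rr i) := by
  have h1 := prod_exp p (fun i => ((i:ℚ) - l) * ((l:ℚ) + 1/2 + i) / ((i:ℚ)+1)^2 * (1/4)) rr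
    (fun _ => 0) k (fun i hi => rmem p l h i (by omega)) (fun _ _ => (Zp p).zero_mem) (by
      intro i hi
      have hy : ((i:ℚ)+1) ≠ 0 := by positivity
      have e : ((i:ℚ) - l) * ((l:ℚ) + 1/2 + i) / ((i:ℚ)+1)^2 * (1/4) - rr i * (1 + p * 0) =
          (p:ℚ)^2 * (-((4:ℚ)⁻¹)^3 * (((i:ℚ)+1)⁻¹)^2) := by
        rw [lq p l h, rr]
        field_simp
        ring
      rw [e]
      exact (I.p_pow 2).mul_mem ((Zp p).mul_mem ((Zp p).neg_mem ((Zp p).pow_mem (inv4 p l h) 3))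
        ((Zp p).pow_mem (invy p l h i (by omega)) 2)))
  rw [prod_mul_distrib, prod_const, card_range] at h1
  simpa [gg] using h1

theorem bb_exp (k : ℕ) (hk : k ≤ l) :
    I p 2 (bb l k - (∏ i ∈ range k, rr i) * (1 + p * ∑ i ∈ range k, -tt i)) := by
  refine prod_exp p (fun i => ((i:ℚ) - l)^2 / (((i:ℚ) - 2*l + 1/2) * ((i:ℚ)+1) * 4)) rr
    (fun i => -tt i) k (fun i hi => rmem p l h i (by omega))
    (fun i hi => (Zp p).neg_mem (tmem p l h i (by omega))) ?_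
  intro i hi
  have hy : ((i:ℚ)+1) ≠ 0 := by positivity
  have hx : (1/4 + (i:ℚ)) ≠ 0 := by positivity
  have hm := mneg p l h i (by omega)
  have hden : (i:ℚ) - 2*l + 1/2 = (i:ℚ)+1 - p/2 := by rw [lq p l h]; ring
  have hnum : (i:ℚ) - l = (1/4 + (i:ℚ)) - p/4 := by rw [lq p l h]; ring
  have e : ((i:ℚ) - l)^2 / (((i:ℚ) - 2*l + 1/2) * ((i:ℚ)+1) * 4) - rr i * (1 + p * -tt i) =
      (p:ℚ)^2 * ((4⁻¹ - (1/4 + (i:ℚ)) * 2⁻¹ * ((i:ℚ)+1)⁻¹)^2 * ((i:ℚ)+1 - p/2)⁻¹ *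
        ((i:ℚ)+1)⁻¹ * 4⁻¹) := by
    rw [hden, hnum, rr, tt]
    generalize hX : (1/4 + (i:ℚ)) = X at *
    generalize hY : ((i:ℚ)+1) = Y at *
    generalize hZ : Y - (p:ℚ)/2 = Z at *
    have hp2 : (p:ℚ) = 2 * (Y - Z) := by rw [← hZ]; ring
    rw [hp2]
    field_simp
    ring
  rw [e]
  refine (I.p_pow 2).mul_mem ?_
  exact (Zp p).mul_mem ((Zp p).mul_mem ((Zp p).mul_mem ((Zp p).pow_mem ((Zp p).sub_mem
    (inv4 p l h) ((Zp p).mul_mem ((Zp p).mul_mem (xmem p l h i) (inv2 p l h))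
      (invy p l h i (by omega)))) 2) (invm p l h i (by omega))) (invy p l h i (by omega)))
    (inv4 p l h)

theorem hh_exp (k : ℕ) (hk : k ≤ l) :
    I p 2 (hh l k - (∏ i ∈ range k, rr i) * (1 + p * ∑ i ∈ range k, tt i)) := by
  refine prod_exp p (fun i => ((i:ℚ) - l) * (3*(l:ℚ)+1+i) / ((2*(l:ℚ) + 3/2 + i) * ((i:ℚ)+1) * 4))
    rr tt k (fun i hi => rmem p l h i (by omega)) (fun i hi => tmem p l h i (by omega)) ?_
  intro i hi
  have hy : ((i:ℚ)+1) ≠ 0 := by positivity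
  have hx : (1/4 + (i:ℚ)) ≠ 0 := by positivity
  have hm : (i:ℚ)+1 + p/2 ≠ 0 := by positivity
  have hden : 2*(l:ℚ) + 3/2 + i = (i:ℚ)+1 + p/2 := by rw [lq p l h]; ring
  have hnum : (i:ℚ) - l = (1/4 + (i:ℚ)) - p/4 := by rw [lq p l h]; ring
  have hnum2 : 3*(l:ℚ)+1+i = (1/4 + (i:ℚ)) + 3*p/4 := by rw [lq p l h]; ring
  have e : ((i:ℚ) - l) * (3*(l:ℚ)+1+i) / ((2*(l:ℚ) + 3/2 + i) * ((i:ℚ)+1) * 4) -
      rr i * (1 + p * tt i) =
      (p:ℚ)^2 * (((1/4 + (i:ℚ)) * 2⁻¹ * ((i:ℚ)+1)⁻¹ + 4⁻¹) *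
        ((1/4 + (i:ℚ)) * 2⁻¹ * ((i:ℚ)+1)⁻¹ - 3 * 4⁻¹) * ((i:ℚ)+1 + p/2)⁻¹ *
        ((i:ℚ)+1)⁻¹ * 4⁻¹) := by
    rw [hden, hnum, hnum2, rr, tt]
    generalize hX : (1/4 + (i:ℚ)) = X at *
    generalize hY : ((i:ℚ)+1) = Y at *
    generalize hZ : Y + (p:ℚ)/2 = Z at *
    have hp2 : (p:ℚ) = 2 * (Z - Y) := by rw [← hZ]; ring
    rw [hp2]
    field_simp
    ring
  rw [e]
  have hxy := (Zp p).mul_mem ((Zp p).mul_mem (xmem p l h i) (inv2 p l h))
      (invy p l h i (by omega))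
  have h3 : (3:ℚ) ∈ Zp p := by exact_mod_cast nat_mem (p := p) 3
  refine (I.p_pow 2).mul_mem ?_
  exact (Zp p).mul_mem ((Zp p).mul_mem ((Zp p).mul_mem ((Zp p).mul_mem
    ((Zp p).add_mem hxy (inv4 p l h)) ((Zp p).sub_mem hxy ((Zp p).mul_mem h3 (inv4 p l h))))
    (invp p l h i (by omega))) (invy p l h i (by omega))) (inv4 p l h)

end

end EXPx

open EXPx in
theorem t_EXP : S_EXP := by
  intro p _ l h hl
  set TT : ℚ := ∑ k ∈ range (l+1), ∏ i ∈ range k, rr i with hTT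
  set DD : ℚ := ∑ k ∈ range (l+1), (∏ i ∈ range k, rr i) * ∑ i ∈ range k, tt i with hDD
  have hpm : (p : ℚ) ∈ Zp p := nat_mem p
  have hTm : TT ∈ Zp p := (Zp p).sum_mem fun k hk => (Zp p).prod_mem fun i hi =>
    rmem p l h i (by rw [mem_range] at hi hk; omega)
  have hDm : DD ∈ Zp p := (Zp p).sum_mem fun k hk => (Zp p).mul_mem
    ((Zp p).prod_mem fun i hi => rmem p l h i (by rw [mem_range] at hi hk; omega))
    ((Zp p).sum_mem fun i hi => tmem p l h i (by rw [mem_range] at hi hk; omega))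
  have hA : I p 2 (Al l - TT) := by
    rw [Al, hTT, ← sum_sub_distrib]
    exact I.sum _ _ fun k hk => gg_exp p l h k (by rw [mem_range] at hk; omega)
  have hB : I p 2 (Bl l - (TT - p * DD)) := by
    have e : Bl l - (TT - p * DD) = ∑ k ∈ range (l+1),
        (bb l k - (∏ i ∈ range k, rr i) * (1 + p * ∑ i ∈ range k, -tt i)) := by
      rw [Bl, hTT, hDD, sum_sub_distrib]
      congr 1
      rw [mul_sum, ← sum_sub_distrib]
      refine sum_congr rfl fun k _ => ?_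
      rw [sum_neg_distrib]; ring
    rw [e]
    exact I.sum _ _ fun k hk => bb_exp p l h k (by rw [mem_range] at hk; omega)
  have hC : I p 2 (Cl l - (TT + p * DD)) := by
    have e : Cl l - (TT + p * DD) = ∑ k ∈ range (l+1),
        (hh l k - (∏ i ∈ range k, rr i) * (1 + p * ∑ i ∈ range k, tt i)) := by
      rw [Cl, hTT, hDD, sum_sub_distrib]
      congr 1
      rw [mul_sum, ← sum_add_distrib]
      refine sum_congr rfl fun k _ => ?_
      ring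
    rw [e]
    exact I.sum _ _ fun k hk => hh_exp p l h k (by rw [mem_range] at hk; omega)
  have hAm : Al l ∈ Zp p := by
    have := (Zp p).add_mem hA.mem hTm
    simpa using this
  have hBm : Bl l ∈ Zp p := by
    have := (Zp p).add_mem hB.mem ((Zp p).sub_mem hTm ((Zp p).mul_mem hpm hDm))
    simpa using this
  have hCm : Cl l ∈ Zp p := by
    have := (Zp p).add_mem hC.mem ((Zp p).add_mem hTm ((Zp p).mul_mem hpm hDm))
    simpa using this
  refine ⟨?_, ?_, ?_, hAm, hBm, hCm, ?_⟩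
  · have e : 2 * Al l - Bl l - Cl l = (Al l - TT) + (Al l - TT) - (Bl l - (TT - p * DD)) -
        (Cl l - (TT + p * DD)) := by ring
    rw [e]
    exact ((hA.add hA).sub hB).sub hC
  · have e : Al l ^ 2 - Bl l * Cl l = (Al l - TT) * (Al l + TT) - (Bl l - (TT - p * DD)) * Cl l -
        (TT - p * DD) * (Cl l - (TT + p * DD)) + (p:ℚ)^2 * (DD^2) := by ring
    rw [e]
    exact (((hA.mul_mem ((Zp p).add_mem hAm hTm)).sub (hB.mul_mem hCm)).sub
      (I.mem_mul ((Zp p).sub_mem hTm ((Zp p).mul_mem hpm hDm)) hC)).add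
      ((I.p_pow 2).mul_mem ((Zp p).pow_mem hDm 2))
  · have e : Al l - Bl l = (Al l - TT) - (Bl l - (TT - p * DD)) + (p:ℚ)^1 * DD := by ring
    rw [e]
    exact ((hA.mono (by norm_num)).sub (hB.mono (by norm_num))).add ((I.p_pow 1).mul_mem hDm)
  · have e : ∑ k ∈ range (l+1), (∏ i ∈ range k, ((1/4 + (i:ℚ))/((i:ℚ)+1)))^2 * (1/4)^k = TT := by
      rw [hTT]
      refine sum_congr rfl fun k _ => ?_
      rw [← prod_pow]
      have e2 : ((1:ℚ)/4)^k = ∏ i ∈ range k, ((1:ℚ)/4) := by rw [prod_const, card_range]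
      rw [e2, ← prod_mul_distrib]
      refine prod_congr rfl fun i _ => ?_
      rw [rr]
      have hy : ((i:ℚ)+1) ≠ 0 := by positivity
      field_simp
    rw [e]
    exact hA

end Pool.Agent.R439.LX
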