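import Pool.Agent.R439.LX.Main
import Pool.Agent.R439.LX.P_EXP

set_option autoImplicit false

namespace Pool.Agent.R439.LX

open Finset Pool.Agent.Helper857.Pad Pool.Agent.R856.CM Pool.Agent.R856.TK

section

variable {p : ℕ} [hp : Fact p.Prime] {c : ℕ} (hc : 6*c+1 = p) (hc1 : 1 ≤ c)
include hc hc1

lemma trunc4 (n : ℕ) (hn : 4*n+1 = p) :
    I p 2 (∑ k ∈ range p, cq k^2 * 4^k - ∑ k ∈ range (n+1), cq k^2 * 4^k) := by
  have e : ∑ k ∈ range p, cq k^2 * 4^k = ∑ k ∈ range (n+1), cq k^2 * 4^k +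
      ∑ k ∈ range (3*n), cq (n+1+k)^2 * 4^(n+1+k) := by
    rw [← sum_range_add, show n+1+3*n = p by omega]
  rw [e, add_sub_cancel_left]
  apply I.sum
  intro k hk
  rw [mem_range] at hk
  have h := (cq_zero hc hc1 n hn k (by omega)).pow 2
  exact h.mul_mem ((Zp p).pow_mem (by exact_mod_cast nat_mem (p := p) 4) _)

lemma termR (n : ℕ) (hn : 4*n+1 = p) :
    I p 2 (∑ k ∈ range (n+1), cq k^2 * 4^k - Rl n) := by
  unfold Rl
  rw [← sum_sub_distrib]
  apply I.sum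
  intro k hk
  rw [mem_range] at hk
  have h := EXPx.gg_exp p n hn k (by omega)
  have e0 : ∏ i ∈ range k, EXPx.rr i = cq k^2 * (1/4)^k := by
    unfold cq
    rw [← prod_pow, ← card_range k, ← prod_const, card_range, ← prod_mul_distrib]
    apply prod_congr rfl
    intro i _
    unfold EXPx.rr
    field_simp
  rw [e0] at h
  have e1 : cq k^2 * 4^k - gg n k * 4^k = (-(16:ℚ)^k) * (gg n k * (1/4)^k - cq k^2 * (1/4)^k) := by
    have : (16:ℚ)^k * (1/4)^k = 4^k := by rw [← mul_pow]; norm_num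
    linear_combination (cq k^2 - gg n k) * (-1) * this * (1:ℚ)
  rw [e1]
  exact I.mem_mul ((Zp p).neg_mem ((Zp p).pow_mem (by exact_mod_cast nat_mem (p := p) 16) _)) h

theorem firstS (hPOLY : S_POLY) (hSIGN : S_SIGN)
    (n : ℕ) (hn : 2*n = 3*c) (heven : c % 2 = 0) (x y : ℤ) (hxy : (p:ℤ) = x^2 + 3*y^2) :
    I p 2 (∑ k ∈ range p, cq k^2 * 4^k - (-1)^n * (ep x * (2*x - p/(2*x)))) := by
  have hn4 : 4*n+1 = p := by omega
  have hsq := s1_sq hc hc1 x y hxy
  have hs3 := s1_mod3 hc hc1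
  have hT1 := T_s1 hc hc1
  obtain ⟨u, hu, hux⟩ : ∃ u : ℤ, s1 p = 2*u ∧ (x = u ∨ x = -u) := by
    have : (s1 p - 2*x) * (s1 p + 2*x) = 0 := by linear_combination hsq
    rcases mul_eq_zero.mp this with h | h
    · exact ⟨x, by linarith, Or.inl rfl⟩
    · exact ⟨-x, by linarith, Or.inr (by ring)⟩
  have hxu : x^2 = u^2 := by rcases hux with rfl | rfl <;> ring
  have huy : (p:ℤ) = u^2 + 3*y^2 := by rw [← hxu]; exact hxy
  have hu3 : u % 3 = 2 := by omega
  have hp4 : (p:ℤ) % 4 = 1 := by omega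
  have hu2 : u % 2 = 1 := by
    rcases Int.emod_two_eq_zero_or_one u with h | h
    · exfalso
      obtain ⟨d, rfl⟩ : ∃ d, u = 2*d := ⟨u/2, by omega⟩
      rcases Int.emod_two_eq_zero_or_one y with h6 | h6
      · obtain ⟨f, rfl⟩ : ∃ f, y = 2*f := ⟨y/2, by omega⟩
        have : (p:ℤ) = 4*(d^2+3*f^2) := by rw [huy]; ring
        omega
      · obtain ⟨f, rfl⟩ : ∃ f, y = 2*f+1 := ⟨y/2, by omega⟩
        have : (p:ℤ) = 4*(d^2+3*f^2+3*f)+3 := by rw [huy]; ring
        omega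
    · exact h
  have hsgn := hSIGN p n u y hn4 (by omega) hu3 hu2 huy
  have hup : ¬ (p:ℤ) ∣ u := by
    intro h
    have hpI : Prime (p:ℤ) := Nat.prime_iff_prime_int.mp hp.out
    have h1 : (p:ℤ) ∣ 3*y^2 := by
      have : 3*y^2 = (p:ℤ) - u^2 := by rw [huy]; ring
      rw [this]
      exact dvd_sub (dvd_refl _) (dvd_pow h (by norm_num))
    rcases hpI.dvd_or_dvd h1 with h2 | h2
    · have : (p:ℕ) ∣ 3 := by exact_mod_cast h2
      exact absurd (Nat.le_of_dvd (by norm_num) this) (by omega)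
    · have h2 := hpI.dvd_of_dvd_pow h2
      have h3 := Int.dvd_coe_gcd h h2
      rw [cop u y huy] at h3
      have h4 : p ∣ 1 := by exact_mod_cast h3
      exact hp.out.one_lt.ne' (Nat.dvd_one.mp h4)
  have hu0 : (u:ℚ) ≠ 0 := by
    intro h0
    apply hup
    have : u = 0 := by exact_mod_cast h0
    rw [this]; exact dvd_zero _
  have mui : ((u:ℚ))⁻¹ ∈ Zp p := inv_int_mem hup
  have mu : (u:ℚ) ∈ Zp p := int_mem _
  have mp' : (p:ℚ) ∈ Zp p := nat_mem _
  have m2i : (1/2:ℚ) ∈ Zp p := by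
    have := one_div_c hc hc1 (k := 2) (by omega) (by omega)
    exact_mod_cast this
  -- the right-hand side in terms of `u`
  have hrhs : ep x * (2*(x:ℚ) - p/(2*x)) = ep u * (2*(u:ℚ) - p/(2*u)) := by
    rcases hux with rfl | rfl
    · rfl
    · have : ep (-u) = - ep u := by
        unfold ep
        rcases (show u % 4 = 1 ∨ u % 4 = 3 by omega) with h | h
        · rw [if_pos h, if_neg (by omega)]
        · rw [if_neg (by omega : ¬ u % 4 = 1), if_pos (by omega)]; norm_num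
      rw [this]
      push_cast
      field_simp
      ring
  rw [hrhs]
  -- `3^n = - ep u` modulo `p`
  have h3n : I p 1 ((3:ℚ)^n + ep u) := by
    unfold ep
    rcases (show u % 4 = 1 ∨ u % 4 = 3 by omega) with h | h
    · rw [if_pos h]
      obtain ⟨z, hz⟩ := hsgn.1 h
      have : (3:ℚ)^n + 1 = (p:ℚ)^1 * (z:ℚ) := by rw [pow_one]; exact_mod_cast hz
      rw [this]
      exact (I.p_pow 1).mul_mem (int_mem _)
    · rw [if_neg (by omega)]
      obtain ⟨z, hz⟩ := hsgn.2 h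
      have : (3:ℚ)^n + -1 = (p:ℚ)^1 * (z:ℚ) := by
        rw [pow_one, ← sub_eq_add_neg]; exact_mod_cast hz
      rw [this]
      exact (I.p_pow 1).mul_mem (int_mem _)
  have hR := t_EV hPOLY n
  rw [hn] at hR
  have hA := A_exp hc hc1
  have hTsq := T_sq (3*c)
  have htr := trunc4 hc hc1 n hn4
  have htm := termR hc hc1 n hn4
  -- `R^2 = AA`
  have hR2 : (Rl n)^2 = (AA (3*c) : ℚ) := by
    have h1 : ((Pool.Agent.R856.CM.TT (3*c) : ℚ))^2 = (-3)^(3*c) * (AA (3*c) : ℚ) := by exact_mod_cast hTsq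
    rw [← hR, ← hn] at h1
    have h2 : ((-3:ℚ)^(2*n)) ≠ 0 := pow_ne_zero _ (by norm_num)
    apply mul_left_cancel₀ h2
    rw [hn] at h1 ⊢
    rw [← h1, ← hn]
    ring
  have hs1 : (s1 p : ℚ) = 2 * u := by exact_mod_cast hu
  rw [hs1] at hA
  obtain ⟨z, hz⟩ := hT1
  have hz' : (Pool.Agent.R856.CM.TT (3*c) : ℚ) + 2 * u = (p:ℚ) * z := by
    rw [← hs1]; exact_mod_cast hz
  have hep : ep u * ep u = 1 := by unfold ep; split_ifs <;> norm_num
  have mep : ep u ∈ Zp p := by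
    unfold ep; split_ifs
    · exact (Zp p).one_mem
    · exact (Zp p).neg_mem (Zp p).one_mem
  have h3e : (3:ℚ)^n = (-1)^n * (-3)^n := by rw [← mul_pow]; norm_num
  have h1e : ((-1:ℚ)^n) * (-1)^n = 1 := by rw [← mul_pow]; norm_num
  have m1n : ((-1:ℚ)^n) ∈ Zp p := (Zp p).pow_mem ((Zp p).neg_mem (Zp p).one_mem) _
  have m3n : ((-3:ℚ)^n) ∈ Zp p := by
    apply (Zp p).pow_mem
    exact (Zp p).neg_mem (by exact_mod_cast nat_mem (p := p) 3)
  have mRl : Rl n ∈ Zp p := by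
    unfold Rl
    apply (Zp p).sum_mem
    intro k hk
    rw [mem_range] at hk
    apply (Zp p).mul_mem _ ((Zp p).pow_mem (by exact_mod_cast nat_mem (p := p) 4) _)
    unfold gg
    apply (Zp p).prod_mem
    intro i hi
    rw [mem_range] at hi
    have h1 := one_div_c hc hc1 (k := i+1) (by omega) (by omega)
    push_cast at h1
    have e5 : ((i:ℚ) - n) * ((n:ℚ) + 1/2 + i) / ((i:ℚ)+1)^2 = ((i:ℚ) - n) * ((n:ℚ) + 1/2 + i) * ((1/((i:ℚ)+1)) * (1/((i:ℚ)+1))) := by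
      field_simp
    rw [e5]
    exact (Zp p).mul_mem ((Zp p).mul_mem ((Zp p).sub_mem (nat_mem _) (nat_mem _)) ((Zp p).add_mem ((Zp p).add_mem (nat_mem _) m2i) (nat_mem _)))
      ((Zp p).mul_mem h1 h1)
  rw [h3e] at h3n
  generalize (Pool.Agent.R856.CM.TT (3*c) : ℚ) = T at *
  generalize (AA (3*c) : ℚ) = W at *
  generalize ep u = e at *
  generalize (-1:ℚ)^n = s at *
  generalize (-3:ℚ)^n = t at *
  generalize hτ : (2*(u:ℚ) - p/(2*u)) = τ at *
  have mτ : τ ∈ Zp p := by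
    have : τ = 2*u - p * ((1/2) * (u:ℚ)⁻¹) := by rw [← hτ]; field_simp
    rw [this]
    exact (Zp p).sub_mem ((Zp p).mul_mem (by exact_mod_cast nat_mem (p := p) 2) mu) ((Zp p).mul_mem mp' ((Zp p).mul_mem m2i mui))
  have q1 : I p 2 (Rl n^2 - τ^2) := by
    have : Rl n^2 - τ^2 = (W - ((2*u)^2 - 2*p))
        + (p:ℚ)^2 * (-((1/2) * (u:ℚ)⁻¹)^2) := by
      rw [← hR2, ← hτ]
      field_simp
      ring
    rw [this]
    exact hA.add ((I.p_pow 2).mul_mem ((Zp p).neg_mem ((Zp p).pow_mem ((Zp p).mul_mem m2i mui) 2)))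
  have q2 : I p 1 (Rl n - s * e * (2*u)) := by
    have : Rl n - s * e * (2*u) = (1 - s*s) * Rl n + s*s*(1 - e*e) * Rl n + s * e * ((s*t + e) * (s * Rl n))
        - s * e * (T + 2*u) + s * e * (T - s*s*(t * Rl n)) := by ring
    rw [this, hep, h1e, sub_self, zero_mul, mul_zero, zero_mul, one_mul, hR, sub_self, mul_zero, add_zero, zero_add, zero_add]
    rw [hz']
    have h6 : I p 1 ((p:ℚ) * z) := by
      have := (I.p_pow (p := p) 1).mul_mem (int_mem (p := p) z)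
      rwa [pow_one] at this
    apply I.sub
    · exact I.mem_mul ((Zp p).mul_mem m1n mep) (h3n.mul_mem ((Zp p).mul_mem m1n mRl))
    · exact I.mem_mul ((Zp p).mul_mem m1n mep) h6
  have q3 : I p 1 (τ - 2*u) := by
    have : τ - 2*u = (p:ℚ)^1 * (-((1/2) * (u:ℚ)⁻¹)) := by rw [← hτ]; field_simp; ring
    rw [this]
    exact (I.p_pow 1).mul_mem ((Zp p).neg_mem ((Zp p).mul_mem m2i mui))
  obtain ⟨g, hg⟩ : ∃ g, g = s * e := ⟨_, rfl⟩
  have hgg : g * g = 1 := by rw [hg]; linear_combination (e*e) * h1e + hep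
  have mg : g ∈ Zp p := by rw [hg]; exact (Zp p).mul_mem m1n mep
  rw [← hg] at q2
  have q2' : I p 1 (Rl n - g * τ) := by
    have : Rl n - g * τ = (Rl n - g * (2*u)) - g * (τ - 2*u) := by ring
    rw [this]
    exact q2.sub (I.mem_mul mg q3)
  have q4 : I p 2 (((4*u : ℤ) : ℚ) * (Rl n - g*τ)) := by
    have : ((4*u : ℤ) : ℚ) * (Rl n - g*τ) = g * ((Rl n^2 - τ^2) - (Rl n - g*τ)^2 - 2 * g * ((Rl n - g*τ) * (τ - 2*u)))
        + (1 - g*g) * ((4*u) * (Rl n - g*τ)) + (1 - g * g) * (g * τ^2) := by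
      push_cast; ring
    rw [this, hgg, sub_self, zero_mul, zero_mul, add_zero, add_zero]
    have h2 : I p 2 ((Rl n - g*τ)^2) := q2'.pow 2
    have h3 : I p 2 ((Rl n - g*τ) * (τ - 2*u)) := q2'.mul q3
    have m2 : (2:ℚ) ∈ Zp p := by exact_mod_cast nat_mem (p := p) 2
    exact I.mem_mul mg ((q1.sub h2).sub (I.mem_mul ((Zp p).mul_mem m2 mg) h3))
  have hu4 : ¬ (p:ℤ) ∣ 4*u := by
    intro h
    have hpI : Prime (p:ℤ) := Nat.prime_iff_prime_int.mp hp.out
    rcases hpI.dvd_or_dvd h with h2 | h2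
    · have h3 : p ∣ 4 := by exact_mod_cast h2
      exact absurd (Nat.le_of_dvd (by norm_num) h3) (by omega)
    · exact hup h2
  have q5 : I p 2 (Rl n - g*τ) := by
    have h8 : ((4*u : ℤ) : ℚ) ≠ 0 := by
      push_cast
      exact mul_ne_zero (by norm_num) hu0
    have := I.mem_mul (inv_int_mem hu4) q4
    rwa [← mul_assoc, inv_mul_cancel₀ h8, one_mul] at this
  have := (htr.add htm).add q5
  convert this using 1
  rw [hg]
  ring

end

end Pool.Agent.R439.LX
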