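import Pool.Agent.R439.LX.Stm
import Pool.Agent.R856.CM12

set_option autoImplicit false

namespace Pool.Agent.R439.LX

open Finset Polynomial Pool.Agent.Helper857.Pad Pool.Agent.R856.CM

lemma ev (h : S_POLY) (n : ℕ) (w : ℂ) :
    fv (2*n) w = ∑ k ∈ range (n+1), ((gg n k : ℚ) : ℂ) * (-4*(w+w^2))^k := by
  have h1 := congrArg (aeval w) (h n)
  rw [ff_aeval, aeval_comp] at h1
  have e : fv (2*n) w = ∑ k ∈ range (2*n+1), (((2*n).choose k : ℂ) * ((2*n+k).choose k : ℂ)) * w^k := rfl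
  rw [e, h1]
  simp only [map_add, map_mul, aeval_X, map_pow, aeval_C, map_sum]
  apply sum_congr rfl
  intro k _
  simp

theorem t_EV (h : S_POLY) (n : ℕ) : (-3:ℚ)^n * Rl n = (Pool.Agent.R856.CM.TT (2*n) : ℚ) := by
  obtain ⟨w, hw⟩ : ∃ w : ℂ, w^2 + w + 1 = 0 := by
    obtain ⟨s, hs⟩ : ∃ s : ℂ, s^2 = -3 := by
      refine ⟨Complex.I * (Real.sqrt 3 : ℂ), ?_⟩
      rw [mul_pow, Complex.I_sq, ← Complex.ofReal_pow, Real.sq_sqrt (by norm_num)]; norm_num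
    exact ⟨(-1 + s)/2, by linear_combination hs/4⟩
  have ha := ev h n w
  have qa : -4*(w+w^2) = 4 := by linear_combination (-4) * hw
  rw [qa] at ha
  have hT := T_fv (2*n) w hw
  rw [ha, pow_mul] at hT
  have e3 : (2*w+1)^2 = -3 := by linear_combination 4 * hw
  rw [e3] at hT
  have eR : ((Rl n : ℚ) : ℂ) = ∑ k ∈ range (n+1), ((gg n k : ℚ) : ℂ) * 4^k := by
    unfold Rl; push_cast; rfl
  rw [← eR] at hT
  have : (((-3:ℚ)^n * Rl n : ℚ) : ℂ) = ((Pool.Agent.R856.CM.TT (2*n) : ℚ) : ℂ) := by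
    push_cast
    rw [hT]
  exact_mod_cast this

end Pool.Agent.R439.LX
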