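import Pool.Agent.R439.LX.Stm

set_option autoImplicit false

/-! LW-REV: reversal of a finite sum (helper45). -/

namespace Pool.Agent.R439.LX

open Finset Polynomial Pool.Agent.Helper857.Pad Pool.Agent.R856.CM

theorem rev_term (l k : ℕ) : k ≤ l → gg l (l - k) * 4 ^ (l - k) = Kl l * bb l k := by
  induction k with
  | zero => intro _; simp [Kl, bb]
  | succ k ih =>
    intro hk
    obtain ⟨j, rfl⟩ : ∃ j, l = j + k + 1 := ⟨l - k - 1, by omega⟩
    have h1 : j + k + 1 - k = j + 1 := by omega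
    have h2 : j + k + 1 - (k + 1) = j := by omega
    have ih' := ih (by omega)
    rw [h1] at ih'
    rw [h2]
    have hb : bb (j + k + 1) (k + 1) = bb (j + k + 1) k *
        (((k : ℚ) - ((j + k + 1 : ℕ) : ℚ)) ^ 2 /
          (((k : ℚ) - 2 * ((j + k + 1 : ℕ) : ℚ) + 1 / 2) * ((k : ℚ) + 1) * 4)) := by
      unfold bb
      rw [Finset.prod_range_succ]
    have hg : gg (j + k + 1) (j + 1) = gg (j + k + 1) j *
        (((j : ℚ) - ((j + k + 1 : ℕ) : ℚ)) * (((j + k + 1 : ℕ) : ℚ) + 1 / 2 + j) /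
          ((j : ℚ) + 1) ^ 2) := by
      unfold gg
      rw [Finset.prod_range_succ]
    rw [hb, ← mul_assoc, ← ih', hg]
    push_cast
    have d1 : ((j : ℚ) + 1) ≠ 0 := by positivity
    have d2 : ((k : ℚ) + 1) ≠ 0 := by positivity
    have d3 : ((k : ℚ) - 2 * ((j : ℚ) + k + 1) + 1 / 2) ≠ 0 := by
      have : (0 : ℚ) ≤ j := by positivity
      have : (0 : ℚ) ≤ k := by positivity
      intro h
      linarith
    have e : ((j : ℚ) - ((j : ℚ) + k + 1)) * ((j : ℚ) + k + 1 + 1 / 2 + j) / ((j : ℚ) + 1) ^ 2 *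
        (((k : ℚ) - ((j : ℚ) + k + 1)) ^ 2 /
          (((k : ℚ) - 2 * ((j : ℚ) + k + 1) + 1 / 2) * ((k : ℚ) + 1) * 4)) * 4 = 1 := by
      rw [div_mul_div_comm, div_mul_eq_mul_div, div_eq_one_iff_eq
        (mul_ne_zero (pow_ne_zero _ d1) (mul_ne_zero (mul_ne_zero d3 d2) (by norm_num)))]
      ring
    rw [pow_succ]
    linear_combination (-(gg (j + k + 1) j * 4 ^ j)) * e

theorem t_REV : S_REV := by
  intro l
  unfold Rl Bl
  rw [Finset.mul_sum, ← Finset.sum_range_reflect]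
  refine Finset.sum_congr rfl fun k hk => ?_
  have hk' : k ≤ l := Nat.lt_succ_iff.mp (Finset.mem_range.mp hk)
  have : l + 1 - 1 - k = l - k := by omega
  rw [this]
  exact rev_term l k hk'

end Pool.Agent.R439.LX
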