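import Pool.Agent.R439.LX.Stm
import Pool.Agent.R856.CM12

set_option autoImplicit false

namespace Pool.Agent.R439.LX

open Finset Pool.Agent.Helper857.Pad Pool.Agent.R856.CM Pool.Agent.R856.TK

namespace SIGN

variable {p : ℕ} [hp : Fact p.Prime]

lemma leg_u (u v : ℤ) (huv : (p:ℤ) = u^2 + 3*v^2) (hp4 : p % 4 = 1) (hu3 : u % 3 = 2) (hu2 : u % 2 = 1) :
    jacobiSym u p = if u % 4 = 1 then -1 else 1 := by
  have hodd : Odd p := Nat.odd_iff.mpr (by omega)
  have h3 : Odd 3 := by decide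
  have hc := cop u v huv
  obtain ⟨m, hm⟩ : ∃ m : ℕ, m = u.natAbs := ⟨_, rfl⟩
  have hmo : Odd m := by rw [hm, Nat.odd_iff]; omega
  have hmu : (m:ℤ) ∣ u := by rw [hm]; exact Int.natAbs_dvd.mpr dvd_rfl
  have hgn : v.gcd m = 1 := by
    have h1 : v.gcd m ∣ Int.gcd u v := by
      apply Int.dvd_gcd
      · exact dvd_trans (Int.gcd_dvd_right v m) hmu
      · exact Int.gcd_dvd_left v m
    rw [hc] at h1
    exact Nat.dvd_one.mp h1
  have hpm : jacobiSym (p:ℤ) m = jacobiSym 3 m := by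
    have : jacobiSym (p:ℤ) m = jacobiSym (3 * v^2) m := by
      apply jacobiSym.mod_left'
      apply Int.ModEq.symm
      rw [Int.modEq_iff_dvd]
      have e : (p:ℤ) - 3*v^2 = u * u := by rw [huv]; ring
      rw [e]
      exact Dvd.dvd.mul_right hmu _
    rw [this, jacobiSym.mul_left, jacobiSym.sq_one' hgn, mul_one]
  have hmp : jacobiSym (m:ℤ) p = jacobiSym 3 m := by
    rw [jacobiSym.quadratic_reciprocity_one_mod_four' hmo hp4, hpm]
  have hχ : ZMod.χ₄ (p : ZMod 4) = 1 := ZMod.χ₄_nat_one_mod_four hp4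
  have hm4 : m % 4 = 1 ∨ m % 4 = 3 := by
    obtain ⟨k, hk⟩ := hmo
    omega
  have hm3 : (m:ℤ) % 3 = 1 → jacobiSym (m:ℤ) 3 = 1 := by
    intro h
    rw [jacobiSym.mod_left]
    have : (m:ℤ) % ((3:ℕ):ℤ) = 1 := by exact_mod_cast h
    rw [this]; exact jacobiSym.one_left 3
  have hm3' : (m:ℤ) % 3 = 2 → jacobiSym (m:ℤ) 3 = -1 := by
    intro h
    rw [jacobiSym.mod_left]
    have : (m:ℤ) % ((3:ℕ):ℤ) = 2 := by exact_mod_cast h
    rw [this]; norm_num
  have r1 : m % 4 = 1 → jacobiSym 3 m = jacobiSym (m:ℤ) 3 := by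
    intro h
    have := jacobiSym.quadratic_reciprocity_one_mod_four h h3
    rw [this]; rfl
  have r3 : m % 4 = 3 → jacobiSym 3 m = - jacobiSym (m:ℤ) 3 := by
    intro h
    have := jacobiSym.quadratic_reciprocity_three_mod_four h (show 3 % 4 = 3 by norm_num)
    rw [this, neg_neg]; rfl
  have hup : jacobiSym u p = jacobiSym (m:ℤ) p := by
    rcases le_total 0 u with h0 | h0
    · have e : u = (m:ℤ) := by omega
      rw [e]
    · have e : u = -(m:ℤ) := by omega
      rw [e, jacobiSym.neg _ hodd, hχ, one_mul]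
  rw [hup, hmp]
  rcases le_total 0 u with h0 | h0
  · have e : (m:ℤ) = u := by omega
    rcases hm4 with h | h
    · rw [r1 h, hm3' (by omega), if_pos (by omega)]
    · rw [r3 h, hm3' (by omega), if_neg (by omega)]; norm_num
  · have e : (m:ℤ) = -u := by omega
    rcases hm4 with h | h
    · rw [r1 h, hm3 (by omega), if_neg (by omega)]
    · rw [r3 h, hm3 (by omega), if_pos (by omega)]

lemma leg_v (u v : ℤ) (n : ℕ) (hn : 4*n+1 = p) (huv : (p:ℤ) = u^2 + 3*v^2) (hu2 : u % 2 = 1) :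
    jacobiSym v p = (-1)^n := by
  have hp4 : p % 4 = 1 := by omega
  have hodd : Odd p := Nat.odd_iff.mpr (by omega)
  have hc := cop u v huv
  have hv0 : v ≠ 0 := by
    rintro rfl
    have h1 : (p:ℤ) = u * u := by rw [huv]; ring
    have h2 : p = u.natAbs * u.natAbs := by
      have := congrArg Int.natAbs h1
      rwa [Int.natAbs_natCast, Int.natAbs_mul] at this
    rcases (Nat.dvd_prime hp.out).mp (Dvd.intro _ h2.symm) with h3 | h3
    · rw [h3] at h2
      exact hp.out.one_lt.ne' h2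
    · rw [h3] at h2
      have := hp.out.one_lt
      nlinarith
  obtain ⟨e, w, hw, hW⟩ := Nat.exists_eq_two_pow_mul_odd (Int.natAbs_ne_zero.mpr hv0)
  have hdw : (w:ℤ) ∣ v := by
    have : w ∣ v.natAbs := ⟨2^e, by rw [hW]; ring⟩
    exact Int.natCast_dvd.mpr this
  have hgw : u.gcd w = 1 := by
    have h1 : u.gcd w ∣ Int.gcd u v := by
      apply Int.dvd_gcd
      · exact Int.gcd_dvd_left u w
      · exact dvd_trans (Int.gcd_dvd_right u w) hdw
    rw [hc] at h1
    exact Nat.dvd_one.mp h1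
  have hwp : jacobiSym (w:ℤ) p = 1 := by
    rw [jacobiSym.quadratic_reciprocity_one_mod_four' hw hp4]
    have : jacobiSym (p:ℤ) w = jacobiSym (u^2) w := by
      apply jacobiSym.mod_left'
      apply Int.ModEq.symm
      rw [Int.modEq_iff_dvd]
      have e : (p:ℤ) - u^2 = v * (3*v) := by rw [huv]; ring
      rw [e]
      exact Dvd.dvd.mul_right hdw _
    rw [this]
    exact jacobiSym.sq_one' hgw
  have hχ : ZMod.χ₄ (p : ZMod 4) = 1 := ZMod.χ₄_nat_one_mod_four hp4
  have hvp : jacobiSym v p = jacobiSym ((v.natAbs : ℕ) : ℤ) p := by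
    rcases le_total 0 v with h0 | h0
    · have e : v = ((v.natAbs : ℕ) : ℤ) := by omega
      rw [← e]
    · have e : v = -((v.natAbs : ℕ) : ℤ) := by omega
      conv_lhs => rw [e]
      rw [jacobiSym.neg _ hodd, hχ, one_mul]
  have hJ : jacobiSym ((v.natAbs : ℕ) : ℤ) p = (jacobiSym 2 p)^e := by
    rw [hW]; push_cast
    rw [jacobiSym.mul_left, jacobiSym.pow_left, hwp, mul_one]
  rw [hvp, hJ, jacobiSym.at_two hodd, ZMod.χ₈_nat_eq_if_mod_eight]
  have h8 : p % 8 = 1 ∨ p % 8 = 5 := by omega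
  obtain ⟨q, hq⟩ : ∃ q, u = 2*q+1 := ⟨u/2, by omega⟩
  have hu8 : ∃ r, u^2 = 8*r+1 := by
    rcases Int.even_or_odd' q with ⟨r, hr | hr⟩
    · exact ⟨2*r^2+r, by rw [hq, hr]; ring⟩
    · exact ⟨2*r^2+3*r+1, by rw [hq, hr]; ring⟩
  obtain ⟨r, hr⟩ := hu8
  rcases h8 with h8 | h8
  · have e1 : n = 2*(n/2) := by omega
    rw [if_neg (by omega), if_pos (by omega), e1, pow_mul]
    norm_num
  · have e1 : n = 2*(n/2)+1 := by omega
    have he : e = 1 := by
      have h5 : (3*v^2) % 8 = 4 := by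
        have : (p:ℤ) % 8 = 5 := by omega
        rw [huv, hr] at this
        omega
      have h6 : v % 4 = 2 := by
        have h7 : v % 4 = 0 ∨ v % 4 = 1 ∨ v % 4 = 2 ∨ v % 4 = 3 := by omega
        rcases h7 with h | h | h | h
        · obtain ⟨k, hk⟩ : ∃ k, v = 4*k := ⟨v/4, by omega⟩
          rw [hk] at h5
          have : 3*(4*k)^2 = 8*(6*k^2) := by ring
          omega
        · obtain ⟨k, hk⟩ : ∃ k, v = 4*k+1 := ⟨v/4, by omega⟩
          rw [hk] at h5
          have : 3*(4*k+1)^2 = 8*(6*k^2+3*k)+3 := by ring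
          omega
        · exact h
        · obtain ⟨k, hk⟩ : ∃ k, v = 4*k+3 := ⟨v/4, by omega⟩
          rw [hk] at h5
          have : 3*(4*k+3)^2 = 8*(6*k^2+9*k+3)+3 := by ring
          omega
      have h8' : v.natAbs % 4 = 2 := by omega
      rw [hW] at h8'
      rcases e with _ | _ | e
      · obtain ⟨k, hk⟩ := hw
        omega
      · rfl
      · exfalso
        have : 2^(e+1+1) * w = 4 * (2^e * w) := by ring
        rw [this] at h8'
        omega
    have e2 : (-1:ℤ)^(2*(n/2)+1) = -1 := by rw [pow_succ, pow_mul]; norm_num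
    rw [if_neg (by omega), if_neg (by omega), he, e1, e2]
    norm_num

lemma three_pow (u v : ℤ) (n : ℕ) (hn : 4*n+1 = p) (huv : (p:ℤ) = u^2 + 3*v^2) (hu3 : u % 3 = 2) (hu2 : u % 2 = 1) :
    (3 : ZMod p)^n = ((if u % 4 = 1 then -1 else 1 : ℤ) : ZMod p) := by
  have jU := leg_u u v huv (by omega) hu3 hu2
  have jV := leg_v u v n hn huv hu2
  rw [← jacobiSym.legendreSym.to_jacobiSym] at jU jV
  have eU := legendreSym.eq_pow p u
  have eV := legendreSym.eq_pow p v
  rw [jU, show p/2 = 2*n by omega] at eU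
  rw [jV, show p/2 = 2*n by omega] at eV
  rw [eU]
  have h2 : ((u:ZMod p))^2 = -3 * (v:ZMod p)^2 := by
    have : ((p:ℤ) : ZMod p) = (((u^2+3*v^2 : ℤ)) : ZMod p) := by rw [← huv]
    push_cast at this
    rw [ZMod.natCast_self] at this
    linear_combination -this
  rw [pow_mul, h2, mul_pow, ← pow_mul, ← eV]
  push_cast
  rw [← mul_pow]
  norm_num

end SIGN

open SIGN in
theorem t_SIGN : S_SIGN := by
  intro p hp n u v hn _ hu3 hu2 huv
  have h := three_pow u v n hn huv hu3 hu2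
  constructor
  · intro h4
    rw [if_pos h4] at h
    apply dvd_of_zmod
    push_cast at h ⊢
    rw [h]; ring
  · intro h4
    rw [if_neg (by omega)] at h
    apply dvd_of_zmod
    push_cast at h ⊢
    rw [h]; ring

end Pool.Agent.R439.LX
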