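import Pool.Agent.R439.LX.Stm

set_option autoImplicit false

namespace Pool.Agent.R439.LX

open Finset Pool.Agent.R856.CM

namespace STR

lemma hh_succ (l k : ℕ) : hh l (k+1) = hh l k *
    (((k:ℚ) - l) * (3*(l:ℚ)+1+k) / ((2*(l:ℚ) + 3/2 + k) * ((k:ℚ)+1) * 4)) := by
  unfold hh
  rw [prod_range_succ]

lemma hh_rat (l k : ℕ) :
    hh (l+1) k * (3*(3*(l:ℚ)+2)*(3*l+1)*(l+1-k)*(4*l+3+2*k)*(4*l+5+2*k)) =
    hh l k * ((4*(l:ℚ)+3)*(4*l+5)*(3*l+1+k)*(3*l+2+k)*(3*l+3+k)) := by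
  induction k with
  | zero => simp [hh]; ring
  | succ k ih =>
    rw [hh_succ, hh_succ]
    push_cast
    generalize hh (l+1) k = H' at *
    generalize hh l k = H at *
    have hx : (0:ℚ) ≤ l := by positivity
    generalize (l:ℚ) = x at *
    have hk : (0:ℚ) ≤ k := by positivity
    generalize (k:ℚ) = y at *
    have n1 : y + 1 ≠ 0 := by linarith
    have n2 : 2*x + 3/2 + y ≠ 0 := by linarith
    have n3 : 2*(x+1) + 3/2 + y ≠ 0 := by linarith
    have n3' : 4*x + 7 + 2*y ≠ 0 := by linarith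
    have e1 : H' * ((y - (x+1)) * (3*(x+1)+1+y) / ((2*(x+1) + 3/2 + y) * (y+1) * 4)) *
        (3*(3*x+2)*(3*x+1)*(x+1-(y+1))*(4*x+3+2*(y+1))*(4*x+5+2*(y+1))) =
        (H' * (3*(3*x+2)*(3*x+1)*(x+1-y)*(4*x+3+2*y)*(4*x+5+2*y))) *
          ((y - x) * (3*x+4+y) / ((2*x + 3/2 + y) * (y+1) * 4)) := by
      field_simp
      ring
    rw [e1, ih]
    field_simp
    ring

/-- the numerator of the certificate -/
def PP (x y : ℚ) : ℚ := (264*x^3+630*x^2+459*x+105) + (252*x^2+360*x+117)*y + (60*x+30)*y^2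

/-- the ratio `fl (l+1) / fl l` -/
def rho (x : ℚ) : ℚ := 2*(4*x+3)*(4*x+5)/(3*(6*x+7)*(3*x+2))

/-- the certificate -/
def RR (x y : ℚ) : ℚ := - (y * PP x y) / (3*(3*x+1)*(x+1-y)*(4*x+3+2*y)*(4*x+5+2*y))

lemma tele (l k : ℕ) (hk : k ≤ l) :
    ∑ i ∈ range k, (hh (l+1) i - rho l * hh l i) = rho l * RR l k * hh l k := by
  induction k with
  | zero => simp [RR]
  | succ k ih =>
    rw [sum_range_succ, ih (by omega), hh_succ]
    have hr := hh_rat l k
    have hkl : (k:ℚ) + 1 ≤ l := by exact_mod_cast hk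
    have hk0 : (0:ℚ) ≤ k := by positivity
    push_cast
    generalize hh (l+1) k = H' at *
    generalize hh l k = H at *
    generalize (l:ℚ) = x at *
    generalize (k:ℚ) = y at *
    have n0 : x + 1 - y ≠ 0 := by linarith
    have n1 : y + 1 ≠ 0 := by linarith
    have n2 : 2*x + 3/2 + y ≠ 0 := by linarith
    have n4 : 4*x + 3 + 2*y ≠ 0 := by linarith
    have n5 : 4*x + 5 + 2*y ≠ 0 := by linarith
    have n6 : 3*x + 1 ≠ 0 := by linarith
    have n7 : 3*x + 2 ≠ 0 := by linarith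
    have n8 : 6*x + 7 ≠ 0 := by linarith
    have n9 : x - y ≠ 0 := by linarith
    have n10 : x + 1 - (y + 1) ≠ 0 := by linarith
    have n11 : 4*x + 3 + 2*(y+1) ≠ 0 := by linarith
    have n12 : 4*x + 5 + 2*(y+1) ≠ 0 := by linarith
    have hH : H' = H * ((4*x+3)*(4*x+5)*(3*x+1+y)*(3*x+2+y)*(3*x+3+y)) /
        (3*(3*x+2)*(3*x+1)*(x+1-y)*(4*x+3+2*y)*(4*x+5+2*y)) := by
      rw [eq_div_iff (by positivity)]
      exact hr
    rw [hH]
    unfold rho RR PP
    have e2 : 2*x + 3/2 + y = (4*x+3+2*y)/2 := by ring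
    rw [e2]
    have e3 : x + 1 - (y+1) = x - y := by ring
    rw [e3]
    have e4 : 4*x + 3 + 2*(y+1) = 4*x+5+2*y := by ring
    rw [e4]
    have e5 : 4*x + 5 + 2*(y+1) = 4*x+7+2*y := by ring
    rw [e5] at n12 ⊢
    clear ih hr hH e2 e3 e4 e5 n10 n11 n2
    generalize ha : x + 1 - y = a at *
    generalize hb : 4*x + 3 + 2*y = b at *
    generalize hc : 4*x + 5 + 2*y = c at *
    generalize hd : 3*x + 1 = d at *
    generalize he : 3*x + 2 = e at *
    generalize hf : 6*x + 7 = f at *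
    generalize hg : x - y = g at *
    generalize hh' : 4*x + 7 + 2*y = h at *
    generalize hi : y + 1 = j at *
    have hyx : y - x = -g := by rw [← hg]; ring
    rw [hyx]
    field_simp
    rw [← ha, ← hb, ← hc, ← hd, ← he, ← hf, ← hh', ← hi]
    ring

lemma rec (l : ℕ) : Cl (l+1) = rho l * Cl l := by
  unfold Cl
  have h1 := tele l l le_rfl
  rw [sum_sub_distrib, ← mul_sum] at h1
  rw [sum_range_succ (fun k => hh (l+1) k) (l+1), sum_range_succ (fun k => hh (l+1) k) l,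
    sum_range_succ (fun k => hh l k) l, hh_succ (l+1) l]
  have hr := hh_rat l l
  have e : ∑ k ∈ range l, hh (l+1) k = rho l * ∑ k ∈ range l, hh l k + rho l * RR l l * hh l l := by
    linarith
  rw [e]
  have hx0 : (0:ℚ) ≤ l := by positivity
  push_cast
  generalize hh (l+1) l = H' at *
  generalize hh l l = H at *
  generalize (l:ℚ) = x at *
  have hH : H' = H * ((4*x+3)*(4*x+5)*(3*x+1+x)*(3*x+2+x)*(3*x+3+x)) /
      (3*(3*x+2)*(3*x+1)*(x+1-x)*(4*x+3+2*x)*(4*x+5+2*x)) := by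
    have : x + 1 - x ≠ 0 := by linarith
    rw [eq_div_iff (by positivity)]
    exact hr
  have key : rho x * RR x x * H + H' + H' * ((x - (x+1)) * (3*(x+1)+1+x) /
      ((2*(x+1) + 3/2 + x) * (x+1) * 4)) = rho x * H := by
    rw [hH]
    unfold rho RR PP
    have e1 : x + 1 - x = 1 := by ring
    have e2 : 3*x+1+x = 4*x+1 := by ring
    have e3 : 3*x+2+x = 2*(2*x+1) := by ring
    have e4 : 3*x+3+x = 4*x+3 := by ring
    have e5 : 4*x+3+2*x = 3*(2*x+1) := by ring
    have e6 : 4*x+5+2*x = 6*x+5 := by ring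
    have e7 : 2*(x+1) + 3/2 + x = (6*x+7)/2 := by ring
    have e8 : x - (x+1) = -1 := by ring
    have e9 : 3*(x+1)+1+x = 4*(x+1) := by ring
    rw [e1, e2, e3, e4, e5, e6, e7, e8, e9]
    have n1 : x + 1 ≠ 0 := by positivity
    have n2 : 2*x + 1 ≠ 0 := by positivity
    have n3 : 6*x + 7 ≠ 0 := by positivity
    have n4 : 6*x + 5 ≠ 0 := by positivity
    have n5 : 3*x + 1 ≠ 0 := by positivity
    have n6 : 3*x + 2 ≠ 0 := by positivity
    field_simp
    ring
  linear_combination key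

end STR

open STR in
theorem t_STR : S_STR := by
  intro l
  induction l with
  | zero => simp [Cl, hh, fl]
  | succ l ih =>
    rw [STR.rec, ih]
    unfold fl
    rw [prod_range_succ, mul_comm]
    rfl

end Pool.Agent.R439.LX
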