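import Pool.Agent.R856.CM1
import Pool.Agent.Helper857.Pad

set_option autoImplicit false

/-!
Definitions and statements for the sum `S_3` of MP_5b0587_nt, `p ≡ 1 (mod 12)`.
-/

namespace Pool.Agent.R439.LX

open Finset Polynomial Pool.Agent.Helper857.Pad Pool.Agent.R856.CM

/-- `(-n)_k (n+1/2)_k / k!^2` -/
def gg (n k : ℕ) : ℚ := ∏ i ∈ range k, (((i:ℚ) - n) * ((n:ℚ) + 1/2 + i) / ((i:ℚ)+1)^2)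
/-- `(-n)_k (-n)_k / ((-2n+1/2)_k k! 4^k)` -/
def bb (n k : ℕ) : ℚ := ∏ i ∈ range k, (((i:ℚ) - n)^2 / (((i:ℚ) - 2*n + 1/2) * ((i:ℚ)+1) * 4))
/-- `(-n)_k (3n+1)_k / ((2n+3/2)_k k! 4^k)` -/
def hh (n k : ℕ) : ℚ := ∏ i ∈ range k, (((i:ℚ) - n) * (3*(n:ℚ)+1+i) / ((2*(n:ℚ) + 3/2 + i) * ((i:ℚ)+1) * 4))

def Al (n : ℕ) : ℚ := ∑ k ∈ range (n+1), gg n k * (1/4)^k
def Rl (n : ℕ) : ℚ := ∑ k ∈ range (n+1), gg n k * 4^k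
def Bl (n : ℕ) : ℚ := ∑ k ∈ range (n+1), bb n k
def Cl (n : ℕ) : ℚ := ∑ k ∈ range (n+1), hh n k
def Kl (n : ℕ) : ℚ := gg n n * 4^n
def fl (n : ℕ) : ℚ := ∏ i ∈ range n, (2*(4*(i:ℚ)+3)*(4*i+5)/(3*(6*i+7)*(3*i+2)))

/-- even degree analogue of LW.S_POLY -/
def S_POLY : Prop := ∀ n : ℕ, ff (2*n) = (∑ k ∈ range (n+1), C (gg n k) * X^k).comp (C (-4) * (X + X^2))

/-- analogue of LW.S_REV -/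
def S_REV : Prop := ∀ n : ℕ, Rl n = Kl n * Bl n

/-- analogue of LW.S_STR -/
def S_STR : Prop := ∀ n : ℕ, Cl n = fl n

/-- analogue of LW.S_EXP; here `-n = 1/4 - p/4`, `n+1/2 = 1/4 + p/4`, `3n+1 = 1/4 + 3p/4`, `2n+3/2 = 1 + p/2`, `-2n+1/2 = 1 - p/2` -/
def S_EXP : Prop := ∀ (p : ℕ) [Fact p.Prime] (n : ℕ), 4*n+1 = p → 1 ≤ n →
  I p 2 (2*Al n - Bl n - Cl n) ∧ I p 2 (Al n^2 - Bl n * Cl n) ∧ I p 1 (Al n - Bl n) ∧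
  Al n ∈ Zp p ∧ Bl n ∈ Zp p ∧ Cl n ∈ Zp p ∧
  I p 2 (Al n - ∑ k ∈ range (n+1), (∏ i ∈ range k, ((1/4 + (i:ℚ))/((i:ℚ)+1)))^2 * (1/4)^k)

/-- quartic sign: Jacobi symbols -/
def S_SIGN : Prop := ∀ (p : ℕ) [Fact p.Prime] (n : ℕ) (u v : ℤ), 4*n+1 = p → p % 12 = 1 → u % 3 = 2 → u % 2 = 1 →
  (p:ℤ) = u^2 + 3*v^2 → ((u % 4 = 1 → (p:ℤ) ∣ 3^n + 1) ∧ (u % 4 = 3 → (p:ℤ) ∣ 3^n - 1))

end Pool.Agent.R439.LX
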