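import Pool.Agent.R439.LX.Main
import Pool.Agent.R439.LX.P_POLY
import Pool.Agent.R439.LX.P_REV
import Pool.Agent.R439.LX.P_STR
import Pool.Agent.R439.LX.P_EXP
import Pool.Agent.R439.LX.P_SIGN

set_option autoImplicit false

/-!
Problem MP_5b0587_nt, question Q1: the congruence for the third sum `S_3(p)` for all primes `p = 1 (mod 12)`.

Sketch.  `p = 4n+1 = 2m+1 = 6c+1`.  Modulo `p^2` the sum is `A = F(-n, n+1/2; 1; 1/4)`.  The quadratic
transformation `P_{2n}(x) = F(-n,n+1/2;1;1-x^2)` at a primitive cube root of unity gives `F(-n,n+1/2;1;4) = R` with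
`R^2 = sum C(m,k) C(m+k,k) C(2k,k) (-1)^k = t^2 - 2p` modulo `p^2`, `t` the character sum of `x^3+1`.  Reversal gives
`R = K B`, `B = F(-n,-n;-2n+1/2;1/4)`, a certificate evaluates `C = F(-n,3n+1;2n+3/2;1/4)` as a product, which is `K R`
modulo `p^2`, and termwise `A^2 = B C` modulo `p^2`; so `A^2 = R^2`.  The sign is a quartic symbol of `3`.
-/

namespace Pool.Agent.R439.LX.ThirdOne

open Finset Pool.Agent.Helper857.Pad

/-- the generalised binomial coefficient `a(a-1)...(a-k+1)/k!` -/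
def binom (a : ℚ) (k : ℕ) : ℚ := (∏ i ∈ range k, (a - (i : ℚ))) / (k.factorial : ℚ)

/-- `S_3(p)`: the sum over `k < p` of `binom (-1/4) k ^ 2 * 4^(-k)`. -/
def sumThree (p : ℕ) : ℚ := ∑ k ∈ range p, binom (-1/4) k ^ 2 / 4 ^ k

/-- `a - b` is `p^2` times a rational number with denominator coprime to `p`. -/
def CongSq (p : ℕ) (a b : ℚ) : Prop := ∃ q : ℚ, Nat.Coprime q.den p ∧ a - b = (p : ℚ) ^ 2 * q

lemma cong_of_I {p : ℕ} [hp : Fact p.Prime] {a b : ℚ} (h : I p 2 (a - b)) : CongSq p a b := by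
  obtain ⟨y, hy, e⟩ := h
  rw [mem_Zp] at hy
  exact ⟨y, ((Nat.Prime.coprime_iff_not_dvd hp.out).mpr hy).symm, e⟩

lemma binom_sq (k : ℕ) : binom (-1/4) k ^ 2 / 4 ^ k = Pool.Agent.R439.LX.cq k ^ 2 * (1/4) ^ k := by
  have h1 : ∏ i ∈ range k, ((-1/4:ℚ) - (i : ℚ)) = (-1)^k * ∏ i ∈ range k, (1/4 + (i:ℚ)) := by
    have : ∀ i ∈ range k, ((-1/4:ℚ) - (i : ℚ)) = (-1) * (1/4 + (i:ℚ)) := by
      intro i _; ring
    rw [prod_congr rfl this, prod_mul_distrib, prod_const, card_range]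
  have h2 : ∏ i ∈ range k, ((i:ℚ)+1) = (k.factorial : ℚ) := by
    rw [← Finset.prod_range_add_one_eq_factorial]; push_cast; rfl
  have h3 : ((-1:ℚ)^k)^2 = 1 := by rw [← pow_mul, mul_comm, pow_mul]; norm_num
  unfold binom Pool.Agent.R439.LX.cq
  rw [prod_div_distrib, h2, h1, one_div, inv_pow, div_pow, div_pow, mul_pow, h3, one_mul, div_eq_mul_inv _ ((4:ℚ)^k)]

lemma odd_of {p : ℕ} (h12 : p % 12 = 1) (A B : ℤ) (hAB : (p:ℤ) = A^2 + 3*B^2) : A % 2 = 1 := by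
  rcases Int.emod_two_eq_zero_or_one A with h | h
  · exfalso
    obtain ⟨d, rfl⟩ : ∃ d, A = 2*d := ⟨A/2, by omega⟩
    rcases Int.emod_two_eq_zero_or_one B with h6 | h6
    · obtain ⟨f, rfl⟩ : ∃ f, B = 2*f := ⟨B/2, by omega⟩
      have : (p:ℤ) = 4*(d^2+3*f^2) := by rw [hAB]; ring
      omega
    · obtain ⟨f, rfl⟩ : ∃ f, B = 2*f+1 := ⟨B/2, by omega⟩
      have : (p:ℤ) = 4*(d^2+3*f^2+3*f)+3 := by rw [hAB]; ring
      omega
  · exact h

lemma sign_eq (A : ℤ) (h : A % 2 = 1) : (-1:ℚ)^((A-1)/2) = Pool.Agent.R439.LX.ep A := by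
  unfold Pool.Agent.R439.LX.ep
  split_ifs with h4
  · have : Even ((A-1)/2) := by rw [Int.even_iff]; omega
    exact this.neg_one_zpow
  · have : Odd ((A-1)/2) := by rw [Int.odd_iff]; omega
    exact this.neg_one_zpow

/-- For every prime `p = 1 (mod 12)`: `p = A^2 + 3B^2` is solvable, and for every solution `A` is odd and
`S_3(p) = (-1)^((A-1)/2) (2A - p/(2A))` modulo `p^2`. -/
theorem result (p : ℕ) (hp : p.Prime) (h12 : p % 12 = 1) :
    (∃ A B : ℤ, (p : ℤ) = A ^ 2 + 3 * B ^ 2) ∧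
    ∀ A B : ℤ, (p : ℤ) = A ^ 2 + 3 * B ^ 2 → A % 2 = 1 ∧
      CongSq p (sumThree p) ((-1) ^ ((A - 1) / 2) * (2 * A - p / (2 * A))) := by
  have : Fact p.Prime := ⟨hp⟩
  obtain ⟨j, hj⟩ : ∃ j, p = 12*j+1 := ⟨p/12, by omega⟩
  have hj1 : 1 ≤ j := by
    have := hp.one_lt
    omega
  constructor
  · obtain ⟨a, b, -, hab⟩ := Pool.Agent.R856.CM.s1_form (p := p) (c := 2*j) (by omega) (by omega)
    exact ⟨a, b, hab⟩
  · intro A B hAB
    have hA := odd_of h12 A B hAB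
    refine ⟨hA, ?_⟩
    apply cong_of_I
    rw [sign_eq A hA]
    have h := Pool.Agent.R439.LX.third (p := p) (c := 2*j) (by omega) (by omega)
      Pool.Agent.R439.LX.t_POLY Pool.Agent.R439.LX.t_REV Pool.Agent.R439.LX.t_STR Pool.Agent.R439.LX.t_EXP
      Pool.Agent.R439.LX.t_SIGN (3*j) (by omega) (by omega) A B hAB
    have e : sumThree p = ∑ k ∈ range p, Pool.Agent.R439.LX.cq k ^ 2 * (1/4) ^ k := by
      unfold sumThree
      exact sum_congr rfl (fun k _ => binom_sq k)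
    rw [e]
    exact h

end Pool.Agent.R439.LX.ThirdOne
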